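import Pool.Agent.PWH.St
import Pool.Agent.PWF.Sym
import Pool.Agent.PWF.Bas
import Pool.Agent.PWF.Rea
import Pool.Agent.PWF.Eqb
import Pool.Agent.PWF.Psb
import Pool.Agent.PWF.Sld
import Pool.Agent.PWF.Blk
import Pool.Agent.PWF.Fre

/-!
# Campaign PWH: the proven statements of the campaign PWF which are used
-/

set_option autoImplicit false

namespace Pool.Agent.PWH

open Pool.Agent.PWF

theorem bBas : St_Bas := thm_Bas thm_Sym

theorem bRea : St_Rea := thm_Rea

theorem bEqb : St_Eqb := thm_Eqb

theorem bPsb : St_Psb := thm_Psb bBas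

theorem bSld : St_Sld := thm_Sld bBas

theorem bBlk : St_Blk := thm_Blk bEqb bPsb bSld

theorem bFre : St_Fre := thm_Fre bBlk

end Pool.Agent.PWH
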