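import Pool.Agent.PWH.Defs

/-!
# Campaign PWH: statements (solvable layers)

The modules `Bas`, `Rea`, `Eqb`, `Psb`, `Sld`, `Blk`, `Fre` of the campaign PWF are proven: import `Pool.Agent.PWH.Base`,
which contains `bBas : St_Bas`, `bRea`, `bEqb`, `bPsb`, `bSld`, `bBlk`, `bFre`.

Idea.  One abelian chief factor `V` at a time, `T = (x, y)` a handle with values in `V`, `x ≠ 1`, `R` a block
of `k ≥ d + 2` handles which generates `Q` modulo `V`, and `Q/V` is generated by `d` elements.  The closed paths of a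
foot of `T` through `R` form a finite group of Heisenberg type: they change `y` by `f` and the values of `R` by
`κ x`, with `f(ℓ ℓ') = f(ℓ) + f(ℓ') + B(ℓ') (κ(ℓ))`.  Counting: there are at least `|V| ^ (2k - d)` changes `κ x` (`St_Xi`), the changes
`c` on which all `B` vanish are at most `|V| ^ d` (`St_Drv`), the same bound holds for the changes for which `R` does not generate `Q` (`St_Bad`), and Weyl differencing
(`St_Wey`) gives a closed path with the desired `f` after which `R` generates `Q`.  Then `T` is killed (`St_Abs`).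
-/

set_option autoImplicit false

namespace Pool.Agent.PWH

open Pool.Agent.PW Pool.Agent.PWM Pool.Agent.PWB Pool.Agent.PWX Pool.Agent.PWF

/-! ### The calculus of paths -/

/-- (Cmp) Paths can be composed.
Proof.  psh: let `x, b, c` be given, `w = b • x`.  The first push leads to `b₁ = s.u * ι (s.B c + s.τ w) * b`, `c₁ = c + s.κ w`.
`b₁ • x = s.u • w` (`ι _` acts trivially, `E.tr`).  The second push leads from there to
`t.u * ι (t.B c₁ + t.τ (s.u • w)) * s.u * ι (s.B c + s.τ w) * b`; move `ι _` over `s.u`: `ι v * s.u = s.u * ι (s.u⁻¹ • v)` (`E.cj`), `E.add`, additivity. It is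
`(t.u * s.u) * ι (s.u⁻¹ • (t.B c + t.B (s.κ w) + t.τ (s.u • w)) + s.B c + s.τ w) * b`.  Transitivity of `Ps` (`PWF.St_Psb`).
gen: `t.u * s.u * ι (s.u⁻¹ • t.B c + s.B c) = (t.u * ι (t.B c)) * (s.u * ι (s.B c))`.
The identity datum `⟨1, 0, 0, 0⟩` is realised (reflexivity of `Ps`). -/
def St_Cmp : Prop := ∀ {Q V : Type} [Group Q] [Finite Q] [AddCommGroup V] [DistribMulAction Q V]
  (E : Em Q V) {k : ℕ} (R : Fin k → Q × Q), Vd E R ⟨1, 0, 0, 0⟩ ∧
  ∀ s t : Dt Q V k, Vd E R s → Vd E R t → Vd E R (cmp s t)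

/-- (Rev) Paths can be reversed.
Proof.  psh for `rev t` at `x, b', c'`: let `w = t.u⁻¹ • b' • x`, `c = c' - t.κ w`, `b = t.u⁻¹ * ι (-(t.u • t.B c') + t.u • (t.B (t.κ w) - t.τ w)) * b'` (the end point
of the reversed path).  Then `b • x = w` and the push `t` from `(b, c)` ends at `c + t.κ w = c'` and at
`t.u * ι (t.B c + t.τ w) * b = b'` (computation with `E.cj`, `E.add`).  `Ps E.rg x b L b' L'` gives `Ps E.rg x b' L' b L` because `LG` is symmetric
(`PWF.St_Bas`, third part).  gen: `t.u⁻¹ * ι (-(t.u • t.B c)) = (t.u * ι (t.B c))⁻¹`. -/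
def St_Rev : Prop := ∀ {Q V : Type} [Group Q] [Finite Q] [AddCommGroup V] [DistribMulAction Q V]
  (E : Em Q V) {k : ℕ} (R : Fin k → Q × Q) (t : Dt Q V k), Vd E R t → Vd E R (rev t)

/-- (Ele) The elementary paths: the foot is pushed around the first or the second letter of the handle
`i` of `R` (`PWF.St_Sld`, skip over the handles before `i`, ctx for the handles behind).
Proof.  Let `(α, β) = R i`, `D = Dp` of the list of the `R j`, `j < i`.  For `c : Fin k → V × V` the product `Dp` of the changed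
handles `j < i` is `D * ι (δ c)` with `δ` additive in `c`, and `δ c = 0` if `c j = 0` for all `j < i` (induction on the
number of handles; for one handle `(α ι z) (β ι z') (α ι z)⁻¹ (β ι z')⁻¹ = α β α⁻¹ β⁻¹ * ι (an additive function of (z, z'))`).
First letter: `u = D α⁻¹ D⁻¹`, `B c = D • (α • (δ c - (c i).1) - δ c)`, `τ = 0`, and with `η = (D * α)⁻¹ • v` the value `κ v` is `(α⁻¹ • η - η, -η)` at `i` and `0` elsewhere.
Indeed, with `D(c) = D ι(δ c)`, `α(c) = α ι(z)`: `b` becomes `D(c) α(c)⁻¹ D(c)⁻¹ b`; the element `η` of `St_Sld` is `ι` of `(D α)⁻¹ • (b • x)`;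
`η α(c) η⁻¹ = α(c) * (α⁻¹ η α) η⁻¹`.
Second letter: `u = D β D⁻¹`, `B c = D • (β⁻¹ • δ c - δ c + (c i).2)`, `τ = 0`, and with `η = (β * D⁻¹) • v` the value `κ v` is
`(α⁻¹ • (η - β⁻¹ • η) - η, β⁻¹ • η - η)` at `i` and `0` elsewhere: `η β(c) η⁻¹ = β(c) * (β⁻¹ η β) η⁻¹`,
`η β(c)⁻¹ η⁻¹ β(c) α(c) η⁻¹ = α(c) * (α⁻¹ (η (β⁻¹ η⁻¹ β)) α) η⁻¹`.
gen: at `x = 0` (that is `ι x = 1`) the end point is `(D(c) α(c)⁻¹ D(c)⁻¹)` respectively `D(c) β(c) D(c)⁻¹`, in the subgroup generated by the entries. -/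
def St_Ele : Prop := ∀ {Q V : Type} [Group Q] [Finite Q] [AddCommGroup V] [DistribMulAction Q V]
  (E : Em Q V) {k : ℕ} (R : Fin k → Q × Q) (i : Fin k),
  ∃ (D : Q) (δ : (Fin k → V × V) →+ V) (s t : Dt Q V k),
    D ∈ Subgroup.closure {q | ∃ j : Fin k, (j : ℕ) < i ∧ (q = (R j).1 ∨ q = (R j).2)} ∧
    (∀ c, (∀ j : Fin k, (j : ℕ) < i → c j = 0) → δ c = 0) ∧
    Vd E R s ∧ s.u = D * (R i).1⁻¹ * D⁻¹ ∧ s.τ = 0 ∧
    (∀ c, s.B c = D • ((R i).1 • (δ c - (c i).1) - δ c)) ∧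
    (∀ v, s.κ v = Pi.single i ((R i).1⁻¹ • ((D * (R i).1)⁻¹ • v) - (D * (R i).1)⁻¹ • v,
      -((D * (R i).1)⁻¹ • v))) ∧
    Vd E R t ∧ t.u = D * (R i).2 * D⁻¹ ∧ t.τ = 0 ∧
    (∀ c, t.B c = D • ((R i).2⁻¹ • δ c - δ c + (c i).2)) ∧
    ∀ v, t.κ v = Pi.single i ((R i).1⁻¹ • (((R i).2 * D⁻¹) • v - (R i).2⁻¹ • ((R i).2 * D⁻¹) • v) -
      ((R i).2 * D⁻¹) • v, (R i).2⁻¹ • ((R i).2 * D⁻¹) • v - ((R i).2 * D⁻¹) • v)

/-- (Elm) Consequences for all paths.
Proof.  (a) It is enough to get `Pi.single i (z, z')`: with `α, β, D` as in `St_Ele` let `η₂ = -(β • (z + (α⁻¹ • z' - z')))`, `η₁ = -z' + (β⁻¹ • η₂ - η₂)`,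
`v₁ = (D α) • η₁`, `v₂ = (D β⁻¹) • η₂`; then `s.κ v₁ + t.κ v₂ = Pi.single i (z, z')`: the second coordinate is `-η₁ + (β⁻¹ • η₂ - η₂) = z'`, the first one is
`(α⁻¹ • η₁ - η₁) + (α⁻¹ • (η₂ - β⁻¹ • η₂) - η₂) = -(α⁻¹ • z' - z') - β⁻¹ • η₂ = z`.
(b) Show `c i = 0` by strong induction on `i`: `δ c = 0`, so `s.B c = -(D • α • (c i).1)`, `t.B c = D • (c i).2`.
(c) The set of the `q` such that `q⁻¹ * t.u ∈ E.rg` for some realised `t` is a subgroup (`St_Cmp`, `St_Rev`; `E.rg` is normal); by induction on `i` it contains the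
entries of `R i` (`D` is a product of entries of the `R j`, `j < i`); it contains `E.rg`. -/
def St_Elm : Prop := ∀ {Q V : Type} [Group Q] [Finite Q] [AddCommGroup V] [DistribMulAction Q V]
  (E : Em Q V) {k : ℕ} (R : Fin k → Q × Q),
  (∀ c, c ∈ AddSubgroup.closure {z | ∃ t : Dt Q V k, Vd E R t ∧ ∃ v, t.κ v = z}) ∧
  (∀ c, (∀ t : Dt Q V k, Vd E R t → t.B c = 0) → c = 0) ∧
  (Gn (List.ofFn R) ⊔ E.rg = ⊤ → ∀ q : Q, ∃ t : Dt Q V k, Vd E R t ∧ q⁻¹ * t.u ∈ E.rg)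

/-- (Cjp) Conjugation of closed paths by paths, and comparison of paths with the same `u`.
Proof.  (1) `t' = cmp (cmp p t) (rev p)`: `u' = p.u⁻¹ t.u p.u`; `κ' v = p.κ v + t.κ (p.u • v) - p.κ (p.u⁻¹ • (t.u * p.u) • v)` and `t.u ∈ E.rg` acts trivially; `B' c = (t.u p.u)⁻¹ • (-(p.u • p.B c)) + p.u⁻¹ • t.B c + p.B c`.
Take `p` from `St_Elm` (c) for `q`: `p.u = q * ι w`, acts on `V` as `q`.
(2) `ℓ = cmp s (rev t)`: `u = t.u⁻¹ * s.u ∈ E.rg`; `κ v = s.κ v - t.κ (t.u⁻¹ • s.u • v)`, `B c = s.u⁻¹ • (-(t.u • t.B c)) + s.B c`.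
(3) `cmp`, `rev`: `t.u` and `s.u` act trivially. -/
def St_Cjp : Prop := ∀ {Q V : Type} [Group Q] [Finite Q] [AddCommGroup V] [DistribMulAction Q V]
  (E : Em Q V) {k : ℕ} (R : Fin k → Q × Q),
  (Gn (List.ofFn R) ⊔ E.rg = ⊤ → ∀ (q : Q) (t : Dt Q V k), Lp E R t → ∃ t', Lp E R t' ∧
    (∀ v, t'.κ v = t.κ (q • v)) ∧ ∀ c, t'.B c = q⁻¹ • t.B c) ∧
  (∀ s t : Dt Q V k, Vd E R s → Vd E R t → t.u⁻¹ * s.u ∈ E.rg → ∃ l, Lp E R l ∧
    (∀ v, l.κ v = s.κ v - t.κ v) ∧ ∀ c, l.B c = s.B c - t.B c) ∧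
  (∀ s t : Dt Q V k, Lp E R s → Lp E R t → ∃ l, Lp E R l ∧ l.u = t.u * s.u ∧
    (∀ v, l.κ v = s.κ v + t.κ v) ∧ (∀ c, l.B c = s.B c + t.B c) ∧
    ∀ v, l.τ v = s.τ v + t.τ v + t.B (s.κ v)) ∧
  ∀ t : Dt Q V k, Lp E R t → ∃ l, Lp E R l ∧ (∀ v, l.κ v = -t.κ v) ∧ ∀ c, l.B c = -t.B c

/-- (Xib) The changes by closed paths with foot `x` are many.
Proof.  `Xi E R x` is a subgroup of `Fin k → V × V` (`St_Cjp` (3), (4)).  The set of the `v : V` with `t.κ v ∈ Xi E R x` for all closed `t` is a subgroup, contains `x ≠ 0` and is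
stable under `Q` (`St_Cjp` (1)), so it is everything (`Irr`).  Let `Zq` be the quotient of `Fin k → V × V` by `Xi E R x`; for a path `t` let `t̄ : V → Zq` be `κ` modulo `Xi`; it
depends only on the class of `t.u` modulo `E.rg` (`St_Cjp` (2)).  For `s ∈ S` choose a path `t_s` with `s⁻¹ * t_s.u ∈ E.rg` and let `Y` be the subgroup of `Zq` generated
by the images of the `t̄_s`: at most `|V| ^ d` elements (a sum of `S.card` images of `V`).  The set of the `q` such that `t̄` has values in `Y` for all paths `t` with `q⁻¹ * t.u ∈ E.rg` is a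
subgroup (`cmp`, `rev`) and contains `S` and `E.rg` (there `t̄ = 0`), so it is `⊤`.  By `St_Elm` (a) `Y = Zq`. -/
def St_Xib : Prop := ∀ {Q V : Type} [Group Q] [Finite Q] [AddCommGroup V] [Finite V]
  [DistribMulAction Q V] (E : Em Q V), Irr Q V → ∀ {k d : ℕ} (R : Fin k → Q × Q),
  Gn (List.ofFn R) ⊔ E.rg = ⊤ →
  (∃ S : Finset Q, S.card ≤ d ∧ Subgroup.closure (S : Set Q) ⊔ E.rg = ⊤) → ∀ x : V, x ≠ 0 →
  Nat.card V ^ (2 * k) ≤ Nat.card V ^ d * (Xi E R x).ncard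

/-- (Drv) The changes on which the closed paths do not depend are few.
Proof.  `Dr E R` is a subgroup.  For `s ∈ S` choose a path `t_s` with `s⁻¹ * t_s.u ∈ E.rg`.  The map `Dr → (S → V)`, `c ↦ (t_s.B c)_s` is injective: let `c ∈ Dr` and `t_s.B c = 0` for all `s`.  The set
of the `q` such that `t.B c = 0` for all paths `t` with `q⁻¹ * t.u ∈ E.rg` is a subgroup (`cmp`, `rev`, `St_Cjp` (2)) containing `S` and `E.rg`, so it is `⊤`; `St_Elm` (b). -/
def St_Drv : Prop := ∀ {Q V : Type} [Group Q] [Finite Q] [AddCommGroup V] [Finite V]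
  [DistribMulAction Q V] (E : Em Q V) {k d : ℕ} (R : Fin k → Q × Q),
  Gn (List.ofFn R) ⊔ E.rg = ⊤ →
  (∃ S : Finset Q, S.card ≤ d ∧ Subgroup.closure (S : Set Q) ⊔ E.rg = ⊤) →
  (Dr E R).ncard ≤ Nat.card V ^ d

/-- (Bad) The changes for which the handles do not generate `Q` are few.
Proof.  Let `H = Gn (mv E R c) ≠ ⊤`.  `H ⊔ E.rg = ⊤` (`PWF.St_Eqb`: `mv E R c` is congruent to `List.ofFn R`).  `{v | ι v ∈ H}` is a subgroup of `V` stable under `H` and `E.rg`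
(trivial action), so under `Q`; it is not `V` (otherwise `E.rg ≤ H`); so it is `0`.  For a closed path `t` the element `t.u * ι (t.B c)` lies in `H` and in `E.rg`, so it is
`1`: `ι (t.B c) = t.u⁻¹`.  So for two such changes `c, c'` one has `t.B c = t.B c'` for all closed `t`, `c - c' ∈ Dr E R`. -/
def St_Bad : Prop := ∀ {Q V : Type} [Group Q] [Finite Q] [AddCommGroup V] [Finite V]
  [DistribMulAction Q V] (E : Em Q V), Irr Q V → ∀ {k : ℕ} (R : Fin k → Q × Q),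
  Gn (List.ofFn R) ⊔ E.rg = ⊤ →
  {c | Gn (mv E R c) ≠ ⊤}.ncard ≤ (Dr E R).ncard

/-- (Wey) Weyl differencing in a finite group of Heisenberg type.
Proof.  Let `m a b = (a.1 + b.1 + b.2.2 a.2.1, a.2.1 + b.2.1, a.2.2 + b.2.2)`.  For fixed `a` (or fixed `b`) the map `m a b` is injective, so a bijection of the finite set `L` (`V`, `Z`
and `Z →+ V` are finite).  `X := {z | ∃ a ∈ L, a.2.1 = z}` is a finite nonempty set closed under addition, so a subgroup, and all fibres of `L → X` have the same number `|L| / |X|` of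
elements (`a ↦ m a b` is a bijection between fibres).  Let `χ` be a nontrivial additive character of `V` (`AddChar V ℂ`) and `S = ∑ a ∈ L, χ a.1`.  Then (for each `a` substitute `m a b`)
`|S|² = ∑ a, conj (χ a.1) * ∑ b, χ (m a b).1 = ∑ b, χ b.1 * ∑ a, χ (b.2.2 a.2.1)`.
The inner sum over `a` is `|L|` if `χ (b.2.2 z) = 1` for all `z ∈ X`, else `0` (`a ↦ χ (b.2.2 a.2.1)` is multiplicative for `m`).  So `|S|² ≤ |L| * #{b | ∀ z ∈ X, χ (b.2.2 z) = 1}`, and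
`|L| * #{b | ...} = ∑ b, ∑ a, χ (b.2.2 a.2.1) = ∑ a, ∑ b, ... = |L| * #{a | ∀ b ∈ L, χ (b.2.2 a.2.1) = 1} ≤ |L| * (D * |L| / |X|)` (hypothesis with `W` the kernel of `χ`).  So
`|S| ≤ |L| * √(D / |X|) ≤ |L| / (2 |V|)`.  The number of the `a ∈ L` with `a.1 = y` is `|V|⁻¹ ∑ χ, χ (-y) * ∑ a, χ a.1 ≥ (|L| / |V|) * (1 - (|V| - 1) / (2 |V|)) > |L| / (2 |V|)`, and the number of the `a ∈ L`
with `a.2.1 ∈ bad` is at most `D |L| / |X| ≤ |L| / (4 |V|²)`. -/
def St_Wey : Prop := ∀ {V Z : Type} [AddCommGroup V] [Finite V] [AddCommGroup Z] [Finite Z]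
  (L : Set (V × Z × (Z →+ V))) (D : ℕ) (bad : Set Z) (y : V), L.Nonempty →
  (∀ a ∈ L, ∀ b ∈ L, (a.1 + b.1 + b.2.2 a.2.1, a.2.1 + b.2.1, a.2.2 + b.2.2) ∈ L) →
  (∀ W : AddSubgroup V, W ≠ ⊤ →
    {z | (∃ a ∈ L, a.2.1 = z) ∧ ∀ b ∈ L, b.2.2 z ∈ W}.ncard ≤ D) →
  bad.ncard ≤ D → 4 * Nat.card V ^ 2 * D ≤ {z | ∃ a ∈ L, a.2.1 = z}.ncard →
  ∃ a ∈ L, a.1 = y ∧ a.2.1 ∉ bad

/-- (Pth) The good closed path.
Proof.  `St_Wey` with `Z = Fin k → V × V`, `L` the set of the `(f, t.κ x, t.B)`, `t` closed, `ι f = t.u * ι (t.τ x)`; closed under the composition by `St_Cjp` (3) (`E.add`, `E.inj`); nonempty: `⟨1, 0, 0, 0⟩`.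
`D = |V| ^ d`.  The set for `W ≠ ⊤` is contained in `Dr E R`: if `t.B z ∈ W` for all closed `t` then, by `St_Cjp` (1), `q⁻¹ • t.B z ∈ W` for all `q`; `{v | ∀ q, q • v ∈ W}` is a stable subgroup, not `⊤`,
so `⊥`.  `bad = {c | Gn (mv E R c) ≠ ⊤}`; `St_Bad`, `St_Drv`.  `4 |V|² |V| ^ d ≤ |Xi E R x|` from `St_Xib`, `|V| ≥ 2` (as `x ≠ 0`) and `2 k - d ≥ d + 4`. -/
def St_Pth : Prop := ∀ {Q V : Type} [Group Q] [Finite Q] [AddCommGroup V] [Finite V]
  [DistribMulAction Q V] (E : Em Q V), Irr Q V → ∀ {k d : ℕ} (R : Fin k → Q × Q), d + 2 ≤ k →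
  Gn (List.ofFn R) ⊔ E.rg = ⊤ →
  (∃ S : Finset Q, S.card ≤ d ∧ Subgroup.closure (S : Set Q) ⊔ E.rg = ⊤) → ∀ x : V, x ≠ 0 →
  ∀ y : V, ∃ t : Dt Q V k, Vd E R t ∧ t.u * E.ι (t.τ x) = E.ι y ∧ Gn (mv E R (t.κ x)) = ⊤

/-- (Mod) A commutative minimal normal subgroup as an irreducible module.
Proof.  `V = Additive V₀` with `CommGroup V₀` from the hypothesis; `q • v = q v q⁻¹`; `ι` the inclusion. -/
def St_Mod : Prop := ∀ {Q : Type} [Group Q] [Finite Q] (V₀ : Subgroup Q), Mn V₀ →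
  ∃ (V : Type) (_ : AddCommGroup V) (_ : Finite V) (_ : DistribMulAction Q V) (E : Em Q V),
    E.rg = V₀ ∧ Irr Q V

/-- (Abs) A live handle is killed and the block generates `Q` afterwards.
Proof.  If `x = 1` (so `y ≠ 1`) rotate first: `rt (1, y) = (y⁻¹, 1)`.  So let `x ≠ 1`.  `St_Mod`, `R = L.get` (`L = List.ofFn R`, `mv E R 0 = L`), `St_Pth` with `y⁻¹` in the place of `y`: at `b = 1`, `c = 0` the path
gives `Ps V x 1 L y⁻¹ L'` with `L' = mv E R (t.κ x)`; at the element `y` of `V`: `LG ((x, y) :: L) ((x, 1) :: L')`.  Rotate: `rt (x, 1) = (1, x)`, and `PWF.St_Fre` (`Gn L' = ⊤`) leads to `(1, 1)`.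
`Eqv V L L'`: entries are changed by elements `ι _ ∈ V`. -/
def St_Abs : Prop := ∀ {Q : Type} [Group Q] [Finite Q] (V : Subgroup Q), Mn V →
  ∀ (d : ℕ) (L : List (Q × Q)), d + 2 ≤ L.length → Gn L ⊔ V = ⊤ →
  (∃ S : Finset Q, S.card ≤ d ∧ Subgroup.closure (S : Set Q) ⊔ V = ⊤) →
  ∀ x ∈ V, ∀ y ∈ V, (x, y) ≠ (1, 1) →
  ∃ L', Eqv V L L' ∧ Gn L' = ⊤ ∧ LG ((x, y) :: L) ((1, 1) :: L')

/-- (Its2) All the handles of a list with values in `V` are killed.
Proof.  Handles with values in `V` can be exchanged freely: `[p, q]` to `[q, p]` (`dd q = 1`, conjugation by `1`).  If `Gn L ≠ ⊤` bring a live handle of `Ts` to the right end and apply `St_Abs`; so assume `Gn L = ⊤`.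
Then kill the handles one by one: the last handle of `Ts` by `St_Abs` if it is alive (afterwards `Gn L' = ⊤` again, and `Eqv` is transitive, `PWF.St_Eqb`), move the dead handle `(1, 1)` to the left end, and so on. -/
def St_Its2 : Prop := ∀ {Q : Type} [Group Q] [Finite Q] (V : Subgroup Q), Mn V →
  ∀ (d : ℕ) (Ts L : List (Q × Q)), (∀ p ∈ Ts, In V p) → d + 2 ≤ L.length → Gn L ⊔ V = ⊤ →
  (∃ S : Finset Q, S.card ≤ d ∧ Subgroup.closure (S : Set Q) ⊔ V = ⊤) →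
  ((∃ p ∈ Ts, p ≠ (1, 1)) ∨ Gn L = ⊤) →
  ∃ L', Eqv V L L' ∧ Gn L' = ⊤ ∧ LG (Ts ++ L) (List.replicate Ts.length (1, 1) ++ L')

/-! ### Surfaces -/

/-- The state of the induction: the first `h` handles go to `A`, the next `k` handles generate `Q` together
with `A`. -/
def Stt {Q : Type} [Group Q] {g n : ℕ} (ρ : F g n →* Q) (h k : ℕ) (A : Subgroup Q) : Prop :=
  Inv h A ρ ∧ Gn (lst ρ h k) ⊔ A = ⊤

/-- (Lvl2) One abelian chief factor.
Proof.  (Compare the proof of `PWF.thm_Lvl`, file PWF/Lvl.)  Let `π : Q → Q ⧸ M`, `V = A.map π`: `Mn V`.  `Ts = lst (π ρ) 0 h` (entries in `V`), `L = lst (π ρ) h (d + 2)`; `Gn L ⊔ V = ⊤`.  If a handle of `Ts` is alive or `Gn L = ⊤`: `St_Its2` and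
`PWF.St_Rea` (with `m = 0`, `k = h + (d + 2)`) give `φ`; `Gn L' = ⊤` in `Q ⧸ M` means `Gn (lst (ρ φ) h (d + 2)) ⊔ M = ⊤`.  Otherwise all the first `h` handles are dead for `π ρ` and `Gn L ≠ ⊤`, so `V ≠ ⊥`; take `v ∈ V`, `v ≠ 1`.  The image of
`Fge g n h` under `π ρ` is everything (`ρ` is surjective and the first `h` handles are dead).  `PWB.st_KPush` for `π ρ`, the subgroup `⊥`, `i = 0` (`h ≥ 1`) and `y ∈ Fge g n h` with `π ρ y = v`: it gives `φ₁` such that the handle `0` has the values `(1, v)`, the other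
handles of the block stay dead and the elements of `Fge g n h` keep their images, so `L` does not change.  Now a handle is alive: apply the first case to `ρ φ₁` (it satisfies `Stt` for `A`: the first handle goes to `A` because `v ∈ V = A.map π`, `M ≤ A`; and `Gn (lst (ρ φ₁) h (d + 2)) ⊔ A = ⊤` because
`M ≤ A` and modulo `M` nothing has changed). -/
def St_Lvl2 : Prop := ∀ {Q : Type} [Group Q] [Finite Q] {g n h d : ℕ}, 0 < h →
  h + (d + 2) ≤ g → ∀ A M : Subgroup Q, A.Normal → M.Normal → M ≤ A →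
  (∀ x ∈ A, ∀ y ∈ A, x * y * x⁻¹ * y⁻¹ ∈ M) →
  (∀ L : Subgroup Q, L.Normal → M ≤ L → L ≤ A → L = M ∨ L = A) →
  (∃ S : Finset Q, S.card ≤ d ∧ Subgroup.closure (S : Set Q) ⊔ A = ⊤) →
  ∀ ρ : F g n →* Q, Function.Surjective ρ → Stt ρ h (d + 2) A →
  ∃ φ ∈ MCG g n, Stt (ρ.comp (MulEquiv.toMonoidHom φ)) h (d + 2) M

/-- (Cha2) A solvable layer.
Proof.  Strong induction on the order of `A`.  `A = M`: `φ = 1`.  Otherwise let `B` be maximal among the normal subgroups with `M ≤ B < A`; `A/B` is a chief factor; it is commutative because `A/M` is solvable (the subgroup generated by `B` and the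
commutators of `A` is normal in `Q`; if it were `A` then the image of `A` in `Q ⧸ B` would be a perfect, solvable, nontrivial group).  `St_Lvl2` from `A` to `B` (`closure S ⊔ M = ⊤` implies `closure S ⊔ A = ⊤`), then the induction hypothesis for `B`, `M`
(the image of `B` in `Q ⧸ M` is a subgroup of the image of `A`, so solvable). -/
def St_Cha2 : Prop := ∀ {Q : Type} [Group Q] [Finite Q] {g n h d : ℕ}, 0 < h →
  h + (d + 2) ≤ g → ∀ (A M : Subgroup Q) [A.Normal] [M.Normal], M ≤ A →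
  Group.IsSolvable (A.map (QuotientGroup.mk' M)) →
  (∃ S : Finset Q, S.card ≤ d ∧ Subgroup.closure (S : Set Q) ⊔ M = ⊤) →
  ∀ ρ : F g n →* Q, Function.Surjective ρ → Stt ρ h (d + 2) A →
  ∃ φ ∈ MCG g n, Stt (ρ.comp (MulEquiv.toMonoidHom φ)) h (d + 2) M

/-- (Cre2) The block is created.
Proof.  As `PWF.thm_Cre` (file PWF/Cre): in `Q ⧸ N` the first `h + (d + 2)` handles are dead, and `PWB.st_KPush` for `⊥` gives the handles `h + j`, `j < S.card`, the values `(1, s_j)`, where the `s_j` are the elements of `S`. -/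
def St_Cre2 : Prop := ∀ {Q : Type} [Group Q] [Finite Q] {g n h d : ℕ}, h + (d + 2) ≤ g →
  ∀ (ρ : F g n →* Q) (N : Subgroup Q), Function.Surjective ρ → N.Normal →
  (∃ S : Finset Q, S.card ≤ d ∧ Subgroup.closure (S : Set Q) ⊔ N = ⊤) →
  Inv (h + (d + 2)) N ρ →
  ∃ φ ∈ MCG g n, Stt (ρ.comp (MulEquiv.toMonoidHom φ)) h (d + 2) N

/-- (Sol) A solvable layer costs `d + 2` handles.
Proof.  `h = 0`: nothing to do (`φ = 1`).  Otherwise `St_Cre2` (`closure S ⊔ M = ⊤` implies `closure S ⊔ N = ⊤`), then `St_Cha2`. -/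
def St_Sol : Prop := ∀ {Q : Type} [Group Q] [Finite Q] {g n h d : ℕ}, h + (d + 2) ≤ g →
  ∀ (ρ : F g n →* Q) (N M : Subgroup Q) [N.Normal] [M.Normal], Function.Surjective ρ → M ≤ N →
  Group.IsSolvable (N.map (QuotientGroup.mk' M)) →
  (∃ S : Finset Q, S.card ≤ d ∧ Subgroup.closure (S : Set Q) ⊔ M = ⊤) →
  Inv (h + (d + 2)) N ρ →
  ∃ φ ∈ MCG g n, Inv h M (ρ.comp (MulEquiv.toMonoidHom φ))

end Pool.Agent.PWH
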