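import Pool.Agent.PWH.Base

/-!
# Campaign PWH: a live handle is killed and the block generates `Q` afterwards
-/

set_option autoImplicit false

namespace Pool.Agent.PWH

open Pool.Agent.PW Pool.Agent.PWM Pool.Agent.PWB Pool.Agent.PWX Pool.Agent.PWF

section

variable {Q V : Type} [Group Q] [AddCommGroup V] [DistribMulAction Q V]

theorem Abs_mv_zero (E : Em Q V) (L : List (Q × Q)) : mv E L.get 0 = L := by
  have h : (fun i => ((L.get i).1 * E.ι ((0 : Fin L.length → V × V) i).1,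
      (L.get i).2 * E.ι ((0 : Fin L.length → V × V) i).2)) = L.get := by
    funext i
    simp [E.zero]
  unfold mv
  rw [h, List.ofFn_get]

theorem Abs_eqv (E : Em Q V) (L : List (Q × Q)) (c : Fin L.length → V × V) :
    Eqv E.rg L (mv E L.get c) := by
  unfold Eqv
  rw [List.forall₂_iff_get]
  refine ⟨by simp [mv], ?_⟩
  intro i h1 h2
  have e : (mv E L.get c).get ⟨i, h2⟩ = ((L.get ⟨i, h1⟩).1 * E.ι (c ⟨i, h1⟩).1,
      (L.get ⟨i, h1⟩).2 * E.ι (c ⟨i, h1⟩).2) := by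
    simp [mv]
  rw [e]
  refine ⟨?_, ?_⟩
  · rw [inv_mul_cancel_left]
    exact ⟨_, rfl⟩
  · rw [inv_mul_cancel_left]
    exact ⟨_, rfl⟩

end

theorem Abs_rot {Q : Type} [Group Q] (p : Q × Q) (L : List (Q × Q)) :
    LG (p :: L) (rt p :: L) := by
  have h := bBas.2.2.2.1 [] [p] [rt p] L (bBas.2.2.2.2.2.1 p)
  simpa using h

theorem Abs_main (hMod : St_Mod) (hPth : St_Pth) {Q : Type} [Group Q] [Finite Q] (V : Subgroup Q)
    (hV : Mn V) (d : ℕ) (L : List (Q × Q)) (hd : d + 2 ≤ L.length) (hL : Gn L ⊔ V = ⊤)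
    (hS : ∃ S : Finset Q, S.card ≤ d ∧ Subgroup.closure (S : Set Q) ⊔ V = ⊤)
    (x : Q) (hx : x ∈ V) (y : Q) (hy : y ∈ V) (hne : x ≠ 1) :
    ∃ L', Eqv V L L' ∧ Gn L' = ⊤ ∧ LG ((x, y) :: L) ((1, 1) :: L') := by
  obtain ⟨W, iW, fW, aW, E, hE, hI⟩ := hMod V hV
  subst hE
  obtain ⟨x', rfl⟩ := hx
  obtain ⟨y', rfl⟩ := hy
  have hx' : x' ≠ 0 := by
    rintro rfl
    exact hne E.zero
  have hR : Gn (List.ofFn L.get) ⊔ E.rg = ⊤ := by
    rw [List.ofFn_get]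
    exact hL
  obtain ⟨t, ht, hu, hg⟩ := hPth E hI L.get hd hR hS x' hx' (-y')
  refine ⟨mv E L.get (t.κ x'), Abs_eqv E L _, hg, ?_⟩
  have h1 := ht.psh x' 1 0 (E.ι y') ⟨y', rfl⟩
  rw [Abs_mv_zero, one_smul, map_zero, zero_add, zero_add, mul_one, one_mul, hu, E.neg,
    inv_mul_cancel] at h1
  have h2 := Abs_rot (E.ι x', (1 : Q)) (mv E L.get (t.κ x'))
  have h3 : rt (E.ι x', (1 : Q)) = (1, E.ι x') := by
    simp [rt]
  rw [h3] at h2
  have h4 := bFre (mv E L.get (t.κ x')) hg (E.ι x') 1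
  exact bBas.2.1 _ _ _ h1 (bBas.2.1 _ _ _ h2 h4)

theorem thm_Abs (hMod : St_Mod) (hPth : St_Pth) : St_Abs := by
  intro Q _ _ V hV d L hd hL hS x hx y hy hne
  by_cases h : x = 1
  · subst h
    have hy1 : y⁻¹ ≠ 1 := by
      intro h
      apply hne
      rw [inv_eq_one.1 h]
    obtain ⟨L', h1, h2, h3⟩ := Abs_main hMod hPth V hV d L hd hL hS y⁻¹ (V.inv_mem hy) 1
      V.one_mem hy1
    refine ⟨L', h1, h2, ?_⟩
    have h4 := Abs_rot ((1 : Q), y) L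
    have h5 : rt ((1 : Q), y) = (y⁻¹, 1) := by
      simp [rt]
    rw [h5] at h4
    exact bBas.2.1 _ _ _ h4 h3
  · exact Abs_main hMod hPth V hV d L hd hL hS x hx y hy h

end Pool.Agent.PWH
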