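import Pool.Agent.PWH.Base

/-!
# Campaign PWH: the exceptional changes

Helper63 (offer 15833 of helper41).
-/

set_option autoImplicit false

namespace Pool.Agent.PWH

open Pool.Agent.PW Pool.Agent.PWM Pool.Agent.PWB Pool.Agent.PWX Pool.Agent.PWF

section

variable {Q V : Type} [Group Q] [AddCommGroup V] [DistribMulAction Q V]

theorem Bad_normal (E : Em Q V) : E.rg.Normal := by
  constructor
  rintro _ ⟨v, rfl⟩ q
  exact ⟨q • v, (E.cj q v).symm⟩

theorem Bad_eqv (E : Em Q V) {k : ℕ} (R : Fin k → Q × Q) (c : Fin k → V × V) :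
    Eqv E.rg (List.ofFn R) (mv E R c) := by
  unfold Eqv mv
  rw [List.forall₂_iff_get]
  refine ⟨by simp, ?_⟩
  intro i h1 h2
  simp only [List.get_eq_getElem, List.getElem_ofFn]
  constructor
  · rw [inv_mul_cancel_left]
    exact ⟨_, rfl⟩
  · rw [inv_mul_cancel_left]
    exact ⟨_, rfl⟩

/-- the elements of `V` which belong to a subgroup of `Q` -/
def BadW (E : Em Q V) (H : Subgroup Q) : AddSubgroup V where
  carrier := {v | E.ι v ∈ H}
  zero_mem' := by
    show E.ι 0 ∈ H
    rw [E.zero]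
    exact H.one_mem
  add_mem' := by
    intro v w hv hw
    show E.ι (v + w) ∈ H
    rw [E.add]
    exact H.mul_mem hv hw
  neg_mem' := by
    intro v hv
    show E.ι (-v) ∈ H
    rw [E.neg]
    exact H.inv_mem hv

/-- the elements of `Q` which preserve a subgroup of `V` -/
def BadN (W : AddSubgroup V) : Subgroup Q where
  carrier := {q | ∀ w, q • w ∈ W ↔ w ∈ W}
  one_mem' := by
    intro w
    rw [one_smul]
  mul_mem' := by
    intro p q hp hq w
    rw [mul_smul, hp, hq]
  inv_mem' := by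
    intro q hq w
    rw [← hq (q⁻¹ • w), smul_inv_smul]

theorem Bad_small (E : Em Q V) (hI : Irr Q V) {H : Subgroup Q} (h1 : H ⊔ E.rg = ⊤)
    (h2 : H ≠ ⊤) : ∀ v : V, E.ι v ∈ H → v = 0 := by
  have h3 : (⊤ : Subgroup Q) ≤ BadN (BadW E H) := by
    rw [← h1]
    refine sup_le ?_ ?_
    · intro q hq w
      show E.ι (q • w) ∈ H ↔ E.ι w ∈ H
      rw [← E.cj]
      constructor
      · intro h
        have := H.mul_mem (H.mul_mem (H.inv_mem hq) h) hq
        have e : q⁻¹ * (q * E.ι w * q⁻¹) * q = E.ι w := by group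
        rwa [e] at this
      · intro h
        exact H.mul_mem (H.mul_mem hq h) (H.inv_mem hq)
    · rintro _ ⟨v, rfl⟩ w
      rw [E.tr]
  rcases hI (BadW E H) fun q w hw => (h3 (Subgroup.mem_top q) w).2 hw with h | h
  · intro v hv
    have : v ∈ BadW E H := hv
    rw [h] at this
    exact this
  · exfalso
    apply h2
    rw [← h1]
    refine (sup_eq_left.2 ?_).symm
    rintro _ ⟨v, rfl⟩
    have : v ∈ BadW E H := by
      rw [h]
      exact AddSubgroup.mem_top v
    exact this

end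

theorem thm_Bad : St_Bad := by
  intro Q V _ _ _ _ _ E hI k R hR
  have key : ∀ c : Fin k → V × V, Gn (mv E R c) ≠ ⊤ → ∀ (t : Dt Q V k) (w : V), Lp E R t →
      E.ι w = t.u → t.B c = -w := by
    intro c hc t w ht hw
    have h1 : Gn (mv E R c) ⊔ E.rg = ⊤ :=
      (bEqb E.rg (Bad_normal E)).2.2.2.2.1 E.rg _ _ le_rfl (Bad_eqv E R c) hR
    have h2 := ht.1.gen c
    rw [← hw, ← E.add] at h2
    have h3 := Bad_small E hI h1 hc _ h2
    exact eq_neg_of_add_eq_zero_right h3
  rcases Set.eq_empty_or_nonempty {c : Fin k → V × V | Gn (mv E R c) ≠ ⊤} with h0 | ⟨c₀, hc₀⟩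
  · rw [h0, Set.ncard_empty]
    exact Nat.zero_le _
  · refine Set.ncard_le_ncard_of_injOn (fun c => c - c₀) ?_ ?_ (Set.toFinite _)
    · intro c hc t ht
      obtain ⟨w, hw⟩ := ht.2
      rw [map_sub, key c hc t w ht hw, key c₀ hc₀ t w ht hw, sub_self]
    · intro c _ c' _ h
      exact sub_left_injective h

end Pool.Agent.PWH
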