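import Pool.Agent.PWH.Base

/-!
# Campaign PWH, module Cha2: a solvable layer
-/

set_option autoImplicit false

namespace Pool.Agent.PWH

open Pool.Agent.PW Pool.Agent.PWM Pool.Agent.PWB Pool.Agent.PWX Pool.Agent.PWF

/-- The image of a solvable layer in a smaller quotient is solvable. -/
theorem Cha2_map {Q : Type} [Group Q] (A M B : Subgroup Q) [M.Normal] [B.Normal] (hMB : M ≤ B)
    (h : Group.IsSolvable (A.map (QuotientGroup.mk' M))) :
    Group.IsSolvable (A.map (QuotientGroup.mk' B)) := by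
  let f : Q ⧸ M →* Q ⧸ B := QuotientGroup.map M B (MonoidHom.id Q) hMB
  have e : (A.map (QuotientGroup.mk' M)).map f = A.map (QuotientGroup.mk' B) := by
    rw [Subgroup.map_map]
    rfl
  rw [← e]
  exact Group.isSolvable_of_surjective (f.subgroupMap_surjective (A.map (QuotientGroup.mk' M)))

/-- A solvable chief factor is commutative. -/
theorem Cha2_com {Q : Type} [Group Q] (A B : Subgroup Q) [A.Normal] [B.Normal] (hBA : B < A)
    (h : Group.IsSolvable (A.map (QuotientGroup.mk' B)))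
    (hmin : ∀ L : Subgroup Q, L.Normal → B ≤ L → L ≤ A → L = B ∨ L = A) :
    ∀ x ∈ A, ∀ y ∈ A, x * y * x⁻¹ * y⁻¹ ∈ B := by
  set π := QuotientGroup.mk' B with hπ
  have hker : ∀ x, π x = 1 ↔ x ∈ B := fun x => QuotientGroup.eq_one_iff x
  have hS : (A.map π).Normal := Subgroup.Normal.map inferInstance π (QuotientGroup.mk'_surjective B)
  have hcomap : ∀ x, π x ∈ A.map π → x ∈ A := by
    rintro x ⟨a, ha, hax⟩
    have h1 : a⁻¹ * x ∈ B := by
      rw [← hker, map_mul, map_inv, hax, inv_mul_cancel]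
    have h2 := mul_mem ha (hBA.le h1)
    rwa [mul_inv_cancel_left] at h2
  have hL : (⁅A.map π, A.map π⁆.comap π).Normal := inferInstance
  have hmem : ∀ x ∈ A, ∀ y ∈ A, x * y * x⁻¹ * y⁻¹ ∈ ⁅A.map π, A.map π⁆.comap π := by
    intro x hx y hy
    rw [Subgroup.mem_comap, map_mul, map_mul, map_mul, map_inv, map_inv]
    exact Subgroup.commutator_mem_commutator (Subgroup.mem_map_of_mem π hx)
      (Subgroup.mem_map_of_mem π hy)
  have hB1 : B ≤ ⁅A.map π, A.map π⁆.comap π := by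
    intro x hx
    rw [Subgroup.mem_comap, (hker x).2 hx]
    exact one_mem _
  have hB2 : ⁅A.map π, A.map π⁆.comap π ≤ A := by
    intro x hx
    exact hcomap x (Subgroup.commutator_le_right _ _ hx)
  rcases hmin (⁅A.map π, A.map π⁆.comap π) hL hB1 hB2 with h1 | h1
  · intro x hx y hy
    rw [← h1]
    exact hmem x hx y hy
  · exfalso
    have h2' := Subgroup.map_comap_eq_self_of_surjective (QuotientGroup.mk'_surjective B)
      ⁅A.map π, A.map π⁆
    have h2 : ⁅A.map π, A.map π⁆ = A.map π := by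
      rw [← h2', h1]
    have hnt : Nontrivial (A.map π) := by
      obtain ⟨a, ha, hb⟩ := SetLike.exists_of_lt hBA
      refine ⟨⟨⟨π a, Subgroup.mem_map_of_mem π ha⟩, 1, fun h3 => hb ?_⟩⟩
      exact (hker a).1 (congrArg Subtype.val h3)
    have h3 := Group.IsSolvable.commutator_lt_top_of_nontrivial (G := A.map π)
    refine h3.ne ?_
    apply Subgroup.map_injective (A.map π).subtype_injective
    rw [Subgroup.map_subtype_commutator, h2, ← MonoidHom.range_eq_map, Subgroup.range_subtype]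

theorem Cha2_aux (hLvl2 : St_Lvl2) {Q : Type} [Group Q] [Finite Q] {g n h d : ℕ} (h0 : 0 < h)
    (hg : h + (d + 2) ≤ g) (M : Subgroup Q) (hM : M.Normal)
    (hS : ∃ S : Finset Q, S.card ≤ d ∧ Subgroup.closure (S : Set Q) ⊔ M = ⊤) (c : ℕ) :
    ∀ A : Subgroup Q, Nat.card A ≤ c → A.Normal → M ≤ A →
    Group.IsSolvable (A.map (QuotientGroup.mk' M)) → ∀ ρ : F g n →* Q, Function.Surjective ρ →
    Stt ρ h (d + 2) A → ∃ φ ∈ MCG g n, Stt (ρ.comp (MulEquiv.toMonoidHom φ)) h (d + 2) M := by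
  induction c with
  | zero =>
    intro A hA
    have := Nat.card_pos (α := A)
    omega
  | succ c ih =>
    intro A hc hA hMA hsol ρ hsurj hρ
    by_cases hAM : A = M
    · exact ⟨1, one_mem _, by rw [← hAM]; exact hρ⟩
    have hne : ({B : Subgroup Q | B.Normal ∧ M ≤ B ∧ B < A} : Set (Subgroup Q)).Nonempty :=
      ⟨M, hM, le_refl M, lt_of_le_of_ne hMA fun h => hAM h.symm⟩
    obtain ⟨B, hB⟩ := (Set.toFinite
      ({B : Subgroup Q | B.Normal ∧ M ≤ B ∧ B < A} : Set (Subgroup Q))).exists_maximal hne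
    obtain ⟨hBn, hMB, hBA⟩ := hB.1
    have hmin : ∀ L : Subgroup Q, L.Normal → B ≤ L → L ≤ A → L = B ∨ L = A := by
      intro L hL hBL hLA
      by_cases hLA' : L = A
      · exact Or.inr hLA'
      · left
        have h1 : L ≤ B := hB.2 ⟨hL, hMB.trans hBL, lt_of_le_of_ne hLA hLA'⟩ hBL
        exact le_antisymm h1 hBL
    have hcom := Cha2_com A B hBA (Cha2_map A M B hMB hsol) hmin
    obtain ⟨S, hSc, hSg⟩ := hS
    have hSA : ∃ S : Finset Q, S.card ≤ d ∧ Subgroup.closure (S : Set Q) ⊔ A = ⊤ :=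
      ⟨S, hSc, top_le_iff.1 (hSg ▸ sup_le_sup_left hMA _)⟩
    obtain ⟨φ, hφ, h1⟩ := hLvl2 h0 hg A B hA hBn hBA.le hcom hmin hSA ρ hsurj hρ
    have hcard : Nat.card B < Nat.card A := by
      have h2 : (B : Set Q) ⊂ (A : Set Q) := SetLike.coe_ssubset_coe.2 hBA
      exact Set.ncard_lt_ncard h2 (Set.toFinite _)
    have hsolB : Group.IsSolvable (B.map (QuotientGroup.mk' M)) :=
      solvable_of_solvable_injective (Subgroup.inclusion_injective
        (Subgroup.map_mono (f := QuotientGroup.mk' M) hBA.le))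
    have hsurj' : Function.Surjective (ρ.comp (MulEquiv.toMonoidHom φ)) :=
      hsurj.comp (MulEquiv.surjective φ)
    obtain ⟨ψ, hψ, h2⟩ := ih B (by omega) hBn hMB hsolB _ hsurj' h1
    exact ⟨φ * ψ, mul_mem hφ hψ, h2⟩

theorem thm_Cha2 (hLvl2 : St_Lvl2) : St_Cha2 := by
  intro Q _ _ g n h d h0 hg A M hA hM hMA hsol hS ρ hsurj hρ
  exact Cha2_aux hLvl2 h0 hg M hM hS (Nat.card A) A le_rfl hA hMA hsol ρ hsurj hρ

end Pool.Agent.PWH
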