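import Pool.Agent.PWH.Base

/-!
# PWH / Cjp: conjugation of closed paths by paths, and comparison of paths
-/

set_option autoImplicit false

namespace Pool.Agent.PWH

open Pool.Agent.PW Pool.Agent.PWM Pool.Agent.PWB Pool.Agent.PWX Pool.Agent.PWF

section

variable {Q V : Type} [Group Q] [AddCommGroup V] [DistribMulAction Q V]

theorem Cjp_triv (E : Em Q V) {g : Q} (hg : g ∈ E.rg) (v : V) : g • v = v := by
  obtain ⟨w, rfl⟩ := hg
  exact E.tr w v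

theorem Cjp_nor (E : Em Q V) {g : Q} (hg : g ∈ E.rg) (p : Q) : p⁻¹ * (g * p) ∈ E.rg := by
  obtain ⟨w, rfl⟩ := hg
  refine ⟨p⁻¹ • w, ?_⟩
  rw [← E.cj p⁻¹ w, inv_inv, mul_assoc]

theorem Cjp_act (q : Q) (v : V) : act V q v = q • v := rfl

theorem Cjp_cmpκ {k : ℕ} (s t : Dt Q V k) (v : V) :
    (cmp s t).κ v = s.κ v + t.κ (s.u • v) := rfl

theorem Cjp_cmpB {k : ℕ} (s t : Dt Q V k) (c : Fin k → V × V) :
    (cmp s t).B c = s.u⁻¹ • t.B c + s.B c := rfl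

theorem Cjp_cmpτ {k : ℕ} (s t : Dt Q V k) (v : V) :
    (cmp s t).τ v = s.τ v + s.u⁻¹ • t.B (s.κ v) + s.u⁻¹ • t.τ (s.u • v) := rfl

theorem Cjp_cmpu {k : ℕ} (s t : Dt Q V k) : (cmp s t).u = t.u * s.u := rfl

theorem Cjp_revκ {k : ℕ} (t : Dt Q V k) (v : V) : (rev t).κ v = -t.κ (t.u⁻¹ • v) := rfl

theorem Cjp_revB {k : ℕ} (t : Dt Q V k) (c : Fin k → V × V) :
    (rev t).B c = -(t.u • t.B c) := rfl

theorem Cjp_revu {k : ℕ} (t : Dt Q V k) : (rev t).u = t.u⁻¹ := rfl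

end

theorem thm_Cjp (hCmp : St_Cmp) (hRev : St_Rev) (hElm : St_Elm) : St_Cjp := by
  intro Q V _ _ _ _ E k R
  obtain ⟨-, hC⟩ := hCmp E R
  have hR := hRev E R
  obtain ⟨-, -, hE⟩ := hElm E R
  refine ⟨?_, ?_, ?_, ?_⟩
  · intro hG q t ht
    obtain ⟨p, hp, hpu⟩ := hE hG q
    have hpq : ∀ v : V, p.u • v = q • v := by
      intro v
      have h1 := Cjp_triv E hpu v
      rw [mul_smul] at h1
      rw [← smul_left_cancel_iff q⁻¹, h1, inv_smul_smul]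
    have hpq' : ∀ v : V, p.u⁻¹ • v = q⁻¹ • v := by
      intro v
      rw [← smul_left_cancel_iff p.u, smul_inv_smul, hpq, smul_inv_smul]
    refine ⟨cmp (cmp p t) (rev p), ⟨hC _ _ (hC _ _ hp ht.1) (hR p hp), ?_⟩, ?_, ?_⟩
    · rw [Cjp_cmpu, Cjp_cmpu, Cjp_revu]
      exact Cjp_nor E ht.2 p.u
    · intro v
      rw [Cjp_cmpκ, Cjp_cmpκ, Cjp_revκ, Cjp_cmpu, mul_smul, Cjp_triv E ht.2, inv_smul_smul, hpq]
      abel
    · intro c
      rw [Cjp_cmpB, Cjp_cmpB, Cjp_revB, Cjp_cmpu, mul_inv_rev, mul_smul,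
        Cjp_triv E (E.rg.inv_mem ht.2), smul_neg, inv_smul_smul, hpq']
      abel
  · intro s t hs ht hu
    refine ⟨cmp s (rev t), ⟨hC _ _ hs (hR t ht), hu⟩, ?_, ?_⟩
    · intro v
      rw [Cjp_cmpκ, Cjp_revκ, ← mul_smul, Cjp_triv E hu, sub_eq_add_neg]
    · intro c
      have h1 : s.u⁻¹ * t.u ∈ E.rg := by
        have h2 := E.rg.inv_mem hu
        rw [mul_inv_rev, inv_inv] at h2
        exact h2
      rw [Cjp_cmpB, Cjp_revB, smul_neg, ← mul_smul, Cjp_triv E h1]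
      abel
  · intro s t hs ht
    refine ⟨cmp s t, ⟨hC _ _ hs.1 ht.1, E.rg.mul_mem ht.2 hs.2⟩, rfl, ?_, ?_, ?_⟩
    · intro v
      rw [Cjp_cmpκ, Cjp_triv E hs.2]
    · intro c
      rw [Cjp_cmpB, Cjp_triv E (E.rg.inv_mem hs.2), add_comm]
    · intro v
      rw [Cjp_cmpτ, Cjp_triv E (E.rg.inv_mem hs.2), Cjp_triv E (E.rg.inv_mem hs.2),
        Cjp_triv E hs.2]
      abel
  · intro t ht
    refine ⟨rev t, ⟨hR t ht.1, E.rg.inv_mem ht.2⟩, ?_, ?_⟩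
    · intro v
      rw [Cjp_revκ, Cjp_triv E (E.rg.inv_mem ht.2)]
    · intro c
      rw [Cjp_revB, Cjp_triv E ht.2]

end Pool.Agent.PWH
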