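import Pool.Agent.PWH.Base

/-!
# Campaign PWH, module Cmp: composition of paths
-/

set_option autoImplicit false

namespace Pool.Agent.PWH

open Pool.Agent.PW Pool.Agent.PWM Pool.Agent.PWB Pool.Agent.PWX Pool.Agent.PWF

section

variable {Q V : Type} [Group Q] [AddCommGroup V] [DistribMulAction Q V]

theorem Cmp_nor (E : Em Q V) : E.rg.Normal := by
  refine ⟨?_⟩
  rintro _ ⟨v, rfl⟩ q
  exact ⟨q • v, (E.cj q v).symm⟩

theorem Cmp_mov (E : Em Q V) (u : Q) (v : V) : E.ι v * u = u * E.ι (u⁻¹ • v) := by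
  rw [← E.cj, inv_inv]
  group

theorem Cmp_act (E : Em Q V) (u b : Q) (v x : V) : (u * E.ι v * b) • x = u • b • x := by
  rw [mul_smul, mul_smul, E.tr]

end

/-- (Cmp) Paths can be composed. -/
theorem thm_Cmp : St_Cmp := by
  intro Q V _ _ _ _ E k R
  obtain ⟨hP1, hP2, -, -, -⟩ := bPsb E.rg (Cmp_nor E)
  refine ⟨⟨fun x b c => ?_, fun c => ?_⟩, fun s t hs ht => ⟨fun x b c => ?_, fun c => ?_⟩⟩
  · have h := hP1 (E.ι x) b (mv E R c)
    have e1 : (1 : Q) * E.ι ((0 : (Fin k → V × V) →+ V) c + (0 : V →+ V) (b • x)) * b = b := by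
      rw [AddMonoidHom.zero_apply, AddMonoidHom.zero_apply, add_zero, E.zero, one_mul, one_mul]
    have e2 : c + (0 : V →+ (Fin k → V × V)) (b • x) = c := by
      rw [AddMonoidHom.zero_apply, add_zero]
    show Ps E.rg (E.ι x) b (mv E R c)
      ((1 : Q) * E.ι ((0 : (Fin k → V × V) →+ V) c + (0 : V →+ V) (b • x)) * b)
      (mv E R (c + (0 : V →+ (Fin k → V × V)) (b • x)))
    rw [e1, e2]
    exact h
  · show (1 : Q) * E.ι ((0 : (Fin k → V × V) →+ V) c) ∈ Gn (mv E R c)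
    rw [AddMonoidHom.zero_apply, E.zero, one_mul]
    exact one_mem _
  · have h1 := hs.psh x b c
    have h2 := ht.psh x (s.u * E.ι (s.B c + s.τ (b • x)) * b) (c + s.κ (b • x))
    have h3 := hP2 _ _ _ _ _ _ _ h1 h2
    rw [Cmp_act] at h3
    have e1 : t.u * E.ι (t.B (c + s.κ (b • x)) + t.τ (s.u • b • x)) *
        (s.u * E.ι (s.B c + s.τ (b • x)) * b) =
        (cmp s t).u * E.ι ((cmp s t).B c + (cmp s t).τ (b • x)) * b := by
      have e2 : (cmp s t).B c + (cmp s t).τ (b • x) =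
          s.u⁻¹ • (t.B (c + s.κ (b • x)) + t.τ (s.u • b • x)) + (s.B c + s.τ (b • x)) := by
        show (s.u⁻¹ • t.B c + s.B c) + (s.τ (b • x) + s.u⁻¹ • t.B (s.κ (b • x)) +
          s.u⁻¹ • t.τ (s.u • b • x)) = _
        rw [map_add, smul_add, smul_add]
        abel
      rw [e2]
      generalize t.B (c + s.κ (b • x)) + t.τ (s.u • b • x) = w₁
      generalize s.B c + s.τ (b • x) = w₂
      show _ = t.u * s.u * E.ι (s.u⁻¹ • w₁ + w₂) * b
      rw [E.add]
      calc t.u * E.ι w₁ * (s.u * E.ι w₂ * b)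
          = t.u * (E.ι w₁ * s.u) * E.ι w₂ * b := by simp only [mul_assoc]
        _ = _ := by
          rw [Cmp_mov]
          simp only [mul_assoc]
    have e4 : c + s.κ (b • x) + t.κ (s.u • b • x) = c + (cmp s t).κ (b • x) := by
      show _ = c + (s.κ (b • x) + t.κ (s.u • b • x))
      rw [add_assoc]
    rw [e1, e4] at h3
    exact h3
  · have h := (Gn (mv E R c)).mul_mem (ht.gen c) (hs.gen c)
    have e : t.u * E.ι (t.B c) * (s.u * E.ι (s.B c)) = (cmp s t).u * E.ι ((cmp s t).B c) := by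
      show _ = t.u * s.u * E.ι (s.u⁻¹ • t.B c + s.B c)
      rw [E.add]
      calc t.u * E.ι (t.B c) * (s.u * E.ι (s.B c))
          = t.u * (E.ι (t.B c) * s.u) * E.ι (s.B c) := by simp only [mul_assoc]
        _ = _ := by
          rw [Cmp_mov]
          simp only [mul_assoc]
    rwa [e] at h

end Pool.Agent.PWH
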