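import Pool.Agent.PWH.Base
import Pool.Agent.PWB.KPush

/-!
# Campaign PWH, module Cre2: the block is created
-/

set_option autoImplicit false

namespace Pool.Agent.PWH

open Pool.Agent.PW Pool.Agent.PWM Pool.Agent.PWB Pool.Agent.PWX Pool.Agent.PWF

/-- The letters of the handles `≥ h` generate the group if the others are dead. -/
theorem Cre2_top {Q : Type} [Group Q] {g n h : ℕ} (ρ : F g n →* Q)
    (hρ : Function.Surjective ρ) (hI : Inv h ⊥ ρ) (q : Q) : ∃ y ∈ Fge g n h, ρ y = q := by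
  have h2 : ∀ w : F g n, ρ w ∈ (Fge g n h).map ρ := by
    intro w
    induction w using FreeGroup.induction_on with
    | C1 =>
      rw [map_one]
      exact Subgroup.one_mem _
    | of x =>
      cases x with
      | a i =>
        by_cases hi : (i : ℕ) < h
        · have h3 := Subgroup.mem_bot.mp (hI i hi).1
          change ρ (ga i) ∈ _
          rw [h3]
          exact Subgroup.one_mem _
        · refine Subgroup.mem_map_of_mem ρ ?_
          exact Subgroup.subset_closure (Or.inl ⟨i, not_lt.mp hi, Or.inl rfl⟩)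
      | b i =>
        by_cases hi : (i : ℕ) < h
        · have h3 := Subgroup.mem_bot.mp (hI i hi).2
          change ρ (gb i) ∈ _
          rw [h3]
          exact Subgroup.one_mem _
        · refine Subgroup.mem_map_of_mem ρ ?_
          exact Subgroup.subset_closure (Or.inl ⟨i, not_lt.mp hi, Or.inr rfl⟩)
      | c j =>
        refine Subgroup.mem_map_of_mem ρ ?_
        exact Subgroup.subset_closure (Or.inr ⟨j, rfl⟩)
    | inv_of x ih =>
      rw [map_inv]
      exact Subgroup.inv_mem _ ih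
    | mul x y hx hy =>
      rw [map_mul]
      exact Subgroup.mul_mem _ hx hy
  obtain ⟨w, rfl⟩ := hρ q
  obtain ⟨y, hy, hyq⟩ := h2 w
  exact ⟨y, hy, hyq⟩

/-- The dead handles `k - t, ..., k - 1` get the values `(1, v l)`. -/
theorem Cre2_all {Q : Type} [Group Q] [Finite Q] {g n k : ℕ} (hk : k ≤ g)
    (σ : F g n →* Q) (hσ : Function.Surjective σ) (hI : Inv k ⊥ σ) (v : ℕ → Q) :
    ∀ t, t ≤ k → ∃ φ ∈ MCG g n, Inv (k - t) ⊥ (σ.comp (MulEquiv.toMonoidHom φ)) ∧
      ∀ l : Fin g, k - t ≤ (l : ℕ) → (l : ℕ) < k → σ (φ (ga l)) = 1 ∧ σ (φ (gb l)) = v l := by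
  intro t
  induction t with
  | zero =>
    intro _
    exact ⟨1, (MCG g n).one_mem, hI, fun l h1 h2 => by omega⟩
  | succ t ih =>
    intro ht
    obtain ⟨φ, hφ, h1, h2⟩ := ih (by omega)
    have hig : k - (t + 1) < g := by omega
    have e : ∀ x : F g n, (σ.comp (MulEquiv.toMonoidHom φ)) x = σ (φ x) := fun _ => rfl
    obtain ⟨y, hy, hyq⟩ := Cre2_top (σ.comp (MulEquiv.toMonoidHom φ)) (hσ.comp φ.surjective) h1
      (v (k - (t + 1)))
    obtain ⟨ψ, hψ, a1, ⟨m, b1⟩, c1, d1⟩ := st_KPush (σ.comp (MulEquiv.toMonoidHom φ)) ⊥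
      (by
        intro x hx z
        rw [Subgroup.mem_bot.mp hx, one_mul, mul_one]) h1 ⟨k - (t + 1), hig⟩
      (by simp only; omega) y hy
    have f1 := h1 ⟨k - (t + 1), hig⟩ (by simp only; omega)
    rw [Subgroup.mem_bot, Subgroup.mem_bot] at f1
    rw [f1.1] at a1 b1
    rw [f1.2, hyq, mul_one, one_zpow, mul_one] at b1
    simp only [f1.1, one_zpow, mul_one, exists_const] at d1
    simp only [e] at a1 b1 c1 d1 h1 f1
    refine ⟨φ * ψ, (MCG g n).mul_mem hφ hψ, fun l hl => ?_, fun l hl hl' => ?_⟩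
    · show σ (φ (ψ (ga l))) ∈ _ ∧ σ (φ (ψ (gb l))) ∈ _
      have hne : l ≠ ⟨k - (t + 1), hig⟩ := by
        intro h
        rw [h] at hl
        simp only at hl
        omega
      have c2 := c1 l (by omega) hne
      rw [c2.1, c2.2]
      exact h1 l (by omega)
    · show σ (φ (ψ (ga l))) = 1 ∧ σ (φ (ψ (gb l))) = v l
      by_cases hlt : l = ⟨k - (t + 1), hig⟩
      · subst hlt
        exact ⟨a1, b1⟩
      · have hne : (l : ℕ) ≠ k - (t + 1) := fun h => hlt (Fin.ext h)
        have hge : k - t ≤ (l : ℕ) := by omega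
        rw [d1 (ga l) (Subgroup.subset_closure (Or.inl ⟨l, hge, Or.inl rfl⟩)),
          d1 (gb l) (Subgroup.subset_closure (Or.inl ⟨l, hge, Or.inr rfl⟩))]
        exact h2 l hge hl'

/-- A block generates the group modulo `N`. -/
theorem Cre2_gen {Q : Type} [Group Q] {g n : ℕ} (ρ : F g n →* Q) (N : Subgroup Q)
    (m d : ℕ) (e : ℕ → Q) (S : Finset Q) (hS : Subgroup.closure (S : Set Q) ⊔ N = ⊤)
    (he : ∀ s ∈ S, ∃ j < d, e j = s) (hv : ∀ j < d, (e j)⁻¹ * (vls ρ (m + j)).2 ∈ N) :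
    Gn (lst ρ m d) ⊔ N = ⊤ := by
  rw [eq_top_iff, ← hS]
  refine sup_le ?_ le_sup_right
  rw [Subgroup.closure_le]
  intro s hs
  obtain ⟨j, hj, rfl⟩ := he s hs
  have h1 : (vls ρ (m + j)).2 ∈ Gn (lst ρ m d) := by
    refine Subgroup.subset_closure ⟨vls ρ (m + j), ?_, Or.inr rfl⟩
    unfold lst
    rw [List.mem_map]
    exact ⟨j, List.mem_range.mpr hj, rfl⟩
  have h2 : e j = (vls ρ (m + j)).2 * ((e j)⁻¹ * (vls ρ (m + j)).2)⁻¹ := by group
  rw [h2]
  exact Subgroup.mul_mem _ ((le_sup_left : Gn (lst ρ m d) ≤ _) h1)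
    ((le_sup_right : N ≤ _) (N.inv_mem (hv j hj)))

/-- The block is created. -/
theorem thm_Cre2 : St_Cre2 := by
  intro Q _ _ g n h d hg ρ N hρ hN hS hI
  obtain ⟨S, hSd, hSN⟩ := hS
  set k := h + (d + 2) with hk
  -- the values
  let e : ℕ → Q := fun j => S.toList.getD j 1
  have he : ∀ s ∈ S, ∃ j < d + 2, e j = s := by
    intro s hs
    rw [← Finset.mem_toList] at hs
    obtain ⟨j, hj, hjs⟩ := List.getElem_of_mem hs
    have hj' : j < d := lt_of_lt_of_le hj (by rw [Finset.length_toList]; exact hSd)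
    refine ⟨j, by omega, ?_⟩
    show S.toList.getD j 1 = s
    rw [List.getD_eq_getElem _ _ hj, hjs]
  have e0 : ∀ x : Q, QuotientGroup.mk' N x = 1 ↔ x ∈ N := fun x => by
    rw [QuotientGroup.mk'_apply, QuotientGroup.eq_one_iff]
  obtain ⟨φ, hφ, h1, h2⟩ := Cre2_all (k := k) (by omega) ((QuotientGroup.mk' N).comp ρ)
    ((QuotientGroup.mk'_surjective N).comp hρ) (by
      intro l hl
      rw [Subgroup.mem_bot, Subgroup.mem_bot]
      exact ⟨(e0 _).mpr (hI l hl).1, (e0 _).mpr (hI l hl).2⟩)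
    (fun l => QuotientGroup.mk' N (e (l - h))) (d + 2) (by omega)
  have hkh : k - (d + 2) = h := by omega
  rw [hkh] at h1 h2
  set ρ' := ρ.comp (MulEquiv.toMonoidHom φ) with hρ'
  have hval : ∀ l, h ≤ l → l < k → (e (l - h))⁻¹ * (vls ρ' l).2 ∈ N := by
    intro l hl hlk
    have hlg : l < g := by omega
    have h3 := (h2 ⟨l, hlg⟩ hl hlk).2
    unfold vls
    rw [dif_pos hlg]
    rw [← e0, map_mul, map_inv]
    change (QuotientGroup.mk' N (e (l - h)))⁻¹ * QuotientGroup.mk' N (ρ (φ (gb ⟨l, hlg⟩))) = 1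
    change QuotientGroup.mk' N (ρ (φ (gb ⟨l, hlg⟩))) = QuotientGroup.mk' N (e (l - h)) at h3
    rw [h3, inv_mul_cancel]
  refine ⟨φ, hφ, ?_, ?_⟩
  · intro l hl
    have h3 := h1 l hl
    rw [Subgroup.mem_bot, Subgroup.mem_bot] at h3
    exact ⟨(e0 _).mp h3.1, (e0 _).mp h3.2⟩
  · refine Cre2_gen ρ' N h (d + 2) e S hSN he (fun j hj => ?_)
    have h5 := hval (h + j) (by omega) (by omega)
    rw [Nat.add_sub_cancel_left] at h5
    exact h5

end Pool.Agent.PWH
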