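import Pool.Agent.PWH.Base

/-!
# Campaign PWH: the changes on which the closed paths do not depend are few
-/

set_option autoImplicit false

namespace Pool.Agent.PWH

open Pool.Agent.PW Pool.Agent.PWM Pool.Agent.PWB Pool.Agent.PWX Pool.Agent.PWF

section

variable {Q V : Type} [Group Q] [AddCommGroup V] [DistribMulAction Q V]

private theorem Drv_nrm (E : Em Q V) : E.rg.Normal := by
  constructor
  rintro _ ⟨v, rfl⟩ q
  exact ⟨q • v, (E.cj q v).symm⟩

/-- Paths with the same value modulo `E.rg` have the same `B` on `Dr`. -/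
private theorem Drv_eq [Finite Q] (hCjp : St_Cjp) (E : Em Q V) {k : ℕ} (R : Fin k → Q × Q)
    {c : Fin k → V × V} (hc : c ∈ Dr E R) {s t : Dt Q V k} (hs : Vd E R s) (ht : Vd E R t)
    (h : t.u⁻¹ * s.u ∈ E.rg) : s.B c = t.B c := by
  obtain ⟨l, hl, -, hB⟩ := (hCjp E R).2.1 s t hs ht h
  have h1 := hc l hl
  rw [hB, sub_eq_zero] at h1
  exact h1

private theorem Drv_zero [Finite Q] (hCmp : St_Cmp) (hRev : St_Rev) (hElm : St_Elm)
    (hCjp : St_Cjp) (E : Em Q V) {k : ℕ} (R : Fin k → Q × Q)
    (S : Set Q) (hS : Subgroup.closure S ⊔ E.rg = ⊤) (T : Q → Dt Q V k)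
    (hT : ∀ q, Vd E R (T q)) (hT' : ∀ q, q⁻¹ * (T q).u ∈ E.rg)
    {c : Fin k → V × V} (hc : c ∈ Dr E R) (h0 : ∀ s ∈ S, (T s).B c = 0) : c = 0 := by
  have hn : E.rg.Normal := Drv_nrm E
  let H : Subgroup Q :=
    { carrier := {q | (T q).B c = 0}
      one_mem' := by
        refine hc _ ⟨hT 1, ?_⟩
        have := hT' 1
        simpa using this
      mul_mem' := by
        intro a b ha hb
        simp only [Set.mem_ofPred_eq] at ha hb ⊢
        have h1 : Vd E R (cmp (T b) (T a)) := (hCmp E R).2 _ _ (hT b) (hT a)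
        have h2 : (T (a * b)).B c = (cmp (T b) (T a)).B c := by
          refine Drv_eq hCjp E R hc (hT _) h1 ?_
          have e1 : (cmp (T b) (T a)).u⁻¹ * (T (a * b)).u =
              ((b⁻¹ * (T b).u)⁻¹ * (b⁻¹ * (a⁻¹ * (T a).u)⁻¹ * b)) *
                ((a * b)⁻¹ * (T (a * b)).u) := by
            simp only [cmp]
            group
          rw [e1]
          refine mul_mem (mul_mem (inv_mem (hT' b)) ?_) (hT' _)
          have := hn.conj_mem _ (inv_mem (hT' a)) b⁻¹
          simpa using this
        rw [h2]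
        change ((act V (T b).u⁻¹).comp (T a).B + (T b).B) c = 0
        rw [AddMonoidHom.add_apply, AddMonoidHom.comp_apply, ha, hb]
        simp
      inv_mem' := by
        intro a ha
        simp only [Set.mem_ofPred_eq] at ha ⊢
        have h2 : (T a⁻¹).B c = (rev (T a)).B c := by
          refine Drv_eq hCjp E R hc (hT _) (hRev E R _ (hT a)) ?_
          have e1 : (rev (T a)).u⁻¹ * (T a⁻¹).u =
              (a * (a⁻¹ * (T a).u) * a⁻¹) * ((a⁻¹)⁻¹ * (T a⁻¹).u) := by
            simp only [rev]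
            group
          rw [e1]
          exact mul_mem (hn.conj_mem _ (hT' a) a) (hT' _)
        rw [h2]
        change (-((act V (T a).u).comp (T a).B)) c = 0
        rw [AddMonoidHom.neg_apply, AddMonoidHom.comp_apply, ha]
        simp }
  have hH : H = ⊤ := by
    rw [eq_top_iff, ← hS, sup_le_iff]
    constructor
    · rw [Subgroup.closure_le]
      intro s hs
      exact h0 s hs
    · intro q hq
      refine hc _ ⟨hT q, ?_⟩
      have := mul_mem hq (hT' q)
      simpa using this
  refine (hElm E R).2.1 c fun t ht => ?_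
  have h1 : t.u ∈ H := by rw [hH]; exact Subgroup.mem_top _
  have h2 : t.B c = (T t.u).B c := by
    refine Drv_eq hCjp E R hc ht (hT _) ?_
    have := inv_mem (hT' t.u)
    simpa [mul_inv_rev] using this
  rw [h2]
  exact h1

end

theorem thm_Drv (hCmp : St_Cmp) (hRev : St_Rev) (hElm : St_Elm) (hCjp : St_Cjp) : St_Drv := by
  intro Q V _ _ _ _ _ E k d R hR hS
  obtain ⟨S, hSd, hS⟩ := hS
  choose T hT hT' using (hElm E R).2.2 hR
  let φ : (Fin k → V × V) → (S → V) := fun c s => (T s).B c
  have hinj : Set.InjOn φ (Dr E R) := by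
    intro c hc c' hc' h
    rw [← sub_eq_zero]
    refine Drv_zero hCmp hRev hElm hCjp E R (S : Set Q) hS T hT hT' ?_ ?_
    · intro t ht
      rw [map_sub, hc t ht, hc' t ht, sub_zero]
    · intro s hs
      have := congrFun h ⟨s, hs⟩
      rw [map_sub, sub_eq_zero]
      exact this
  have h1 : (Dr E R).ncard ≤ (Set.univ : Set (S → V)).ncard :=
    Set.ncard_le_ncard_of_injOn φ (fun _ _ => Set.mem_univ _) hinj (Set.toFinite _)
  rw [Set.ncard_univ, Nat.card_fun] at h1
  refine h1.trans (Nat.pow_le_pow_right Nat.card_pos ?_)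
  simpa using hSd

end Pool.Agent.PWH
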