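import Pool.Agent.PWH.Base

/-!
# Campaign PWH: the elementary paths
-/

set_option autoImplicit false

namespace Pool.Agent.PWH

open Pool.Agent.PW Pool.Agent.PWM Pool.Agent.PWB Pool.Agent.PWX Pool.Agent.PWF

section

variable {Q V : Type} [Group Q] [AddCommGroup V] [DistribMulAction Q V]

theorem Ele_swap (E : Em Q V) (v : V) (q : Q) : E.ι v * q = q * E.ι (q⁻¹ • v) := by
  have h := E.cj q (q⁻¹ • v)
  rw [smul_inv_smul] at h
  rw [← h]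
  group

theorem Ele_mul (E : Em Q V) (q r : Q) (v w : V) :
    q * E.ι v * (r * E.ι w) = q * r * E.ι (r⁻¹ • v + w) := by
  rw [E.add, mul_assoc q, ← mul_assoc (E.ι v), Ele_swap]
  simp only [mul_assoc]

theorem Ele_inv (E : Em Q V) (q : Q) (v : V) : (q * E.ι v)⁻¹ = q⁻¹ * E.ι (-(q • v)) := by
  rw [mul_inv_rev, ← E.neg, Ele_swap, inv_inv, smul_neg]

theorem Ele_tr (E : Em Q V) (q : Q) (v w : V) : (q * E.ι v) • w = q • w := by
  rw [mul_smul, E.tr]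

theorem Ele_tr_inv (E : Em Q V) (q : Q) (v w : V) : (q * E.ι v)⁻¹ • w = q⁻¹ • w := by
  rw [Ele_inv, Ele_tr]

theorem Ele_cj (E : Em Q V) (q : Q) (v : V) : q⁻¹ * E.ι v * q = E.ι (q⁻¹ • v) := by
  rw [mul_assoc, Ele_swap, inv_mul_cancel_left]

/-- The change of a commutator. -/
def Ele_f (V : Type) [AddCommGroup V] [DistribMulAction Q V] (α β : Q) : V × V →+ V :=
  (act V β).comp ((act V α).comp ((act V β⁻¹).comp (AddMonoidHom.fst V V) +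
    AddMonoidHom.snd V V) - (act V α).comp (AddMonoidHom.fst V V)) -
    (act V β).comp (AddMonoidHom.snd V V)

theorem Ele_f_apply (α β : Q) (z : V × V) :
    Ele_f V α β z = β • (α • (β⁻¹ • z.1 + z.2) - α • z.1) - β • z.2 := rfl

theorem Ele_dd (E : Em Q V) (p : Q × Q) (z : V × V) :
    dd (p.1 * E.ι z.1, p.2 * E.ι z.2) = dd p * E.ι (Ele_f V p.1 p.2 z) := by
  change p.1 * E.ι z.1 * (p.2 * E.ι z.2) * (p.1 * E.ι z.1)⁻¹ * (p.2 * E.ι z.2)⁻¹ = _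
  rw [Ele_inv, Ele_inv, Ele_mul, Ele_mul, Ele_mul, inv_inv, inv_inv, Ele_f_apply, dd,
    ← sub_eq_add_neg, ← sub_eq_add_neg]

theorem Ele_dp (l : List (Q × Q)) (p : Q × Q) : Dp (l ++ [p]) = Dp l * dd p := by
  simp [Dp]

theorem Ele_len (E : Em Q V) {k : ℕ} (R : Fin k → Q × Q) (c : Fin k → V × V) :
    (mv E R c).length = k := List.length_ofFn

theorem Ele_get (E : Em Q V) {k : ℕ} (R : Fin k → Q × Q) (c : Fin k → V × V) (j : ℕ)
    (hj : j < (mv E R c).length) (hk : j < k) :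
    (mv E R c)[j] = ((R ⟨j, hk⟩).1 * E.ι (c ⟨j, hk⟩).1, (R ⟨j, hk⟩).2 * E.ι (c ⟨j, hk⟩).2) := by
  simp only [mv, List.getElem_ofFn]

theorem Ele_pre (E : Em Q V) {k : ℕ} (R : Fin k → Q × Q) (j : ℕ) (hj : j ≤ k) :
    ∃ (D : Q) (δ : (Fin k → V × V) →+ V),
      D ∈ Subgroup.closure {q | ∃ l : Fin k, (l : ℕ) < j ∧ (q = (R l).1 ∨ q = (R l).2)} ∧
      (∀ c, (∀ l : Fin k, (l : ℕ) < j → c l = 0) → δ c = 0) ∧
      ∀ c, Dp ((mv E R c).take j) = D * E.ι (δ c) := by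
  induction j with
  | zero =>
    refine ⟨1, 0, Subgroup.one_mem _, fun c _ => rfl, fun c => ?_⟩
    rw [List.take_zero, AddMonoidHom.zero_apply, E.zero, mul_one]
    rfl
  | succ j ih =>
    obtain ⟨D, δ, hD, hδ, h⟩ := ih (by omega)
    have hjk : j < k := by omega
    set J : Fin k := ⟨j, hjk⟩ with hJ
    refine ⟨D * dd (R J), (act V (dd (R J))⁻¹).comp δ +
      (Ele_f V (R J).1 (R J).2).comp (Pi.evalAddMonoidHom (fun _ : Fin k => V × V) J), ?_, ?_, ?_⟩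
    · have h1 : (R J).1 ∈ Subgroup.closure {q | ∃ l : Fin k, (l : ℕ) < j + 1 ∧
          (q = (R l).1 ∨ q = (R l).2)} :=
        Subgroup.subset_closure ⟨J, Nat.lt_succ_self j, Or.inl rfl⟩
      have h2 : (R J).2 ∈ Subgroup.closure {q | ∃ l : Fin k, (l : ℕ) < j + 1 ∧
          (q = (R l).1 ∨ q = (R l).2)} :=
        Subgroup.subset_closure ⟨J, Nat.lt_succ_self j, Or.inr rfl⟩
      refine Subgroup.mul_mem _ (Subgroup.closure_mono ?_ hD) ?_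
      · rintro q ⟨l, hl, hq⟩
        exact ⟨l, by omega, hq⟩
      · exact Subgroup.mul_mem _ (Subgroup.mul_mem _ (Subgroup.mul_mem _ h1 h2)
          (Subgroup.inv_mem _ h1)) (Subgroup.inv_mem _ h2)
    · intro c hc
      change (dd (R J))⁻¹ • δ c + Ele_f V (R J).1 (R J).2 (c J) = 0
      rw [hδ c (fun l hl => hc l (by omega)), hc J (Nat.lt_succ_self j), smul_zero, map_zero,
        add_zero]
    · intro c
      have hlen : j < (mv E R c).length := by rw [Ele_len]; exact hjk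
      rw [List.take_add_one, List.getElem?_eq_getElem hlen, Option.toList_some, Ele_dp, h c,
        Ele_get E R c j hlen hjk, ← hJ, Ele_dd, Ele_mul]
      rfl

theorem Ele_split (E : Em Q V) {k : ℕ} (R : Fin k → Q × Q) (i : Fin k) (c c' : Fin k → V × V)
    (h : ∀ j, j ≠ i → c' j = c j) : mv E R c' = (mv E R c).take i ++
      ([((R i).1 * E.ι (c' i).1, (R i).2 * E.ι (c' i).2)] ++ (mv E R c).drop (i + 1)) := by
  have h1 : mv E R c' = (mv E R c).set i ((R i).1 * E.ι (c' i).1, (R i).2 * E.ι (c' i).2) := by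
    refine List.ext_getElem ?_ fun n hn hn' => ?_
    · rw [List.length_set, Ele_len, Ele_len]
    · have hk : n < k := by rwa [Ele_len] at hn
      rw [List.getElem_set, Ele_get E R c' n hn hk]
      split_ifs with hin
      · subst hin
        rfl
      · rw [Ele_get E R c n (by rwa [Ele_len]) hk, h ⟨n, hk⟩ (fun h => hin (by rw [← h]))]
  rw [h1, List.set_eq_take_append_cons_drop, if_pos (by rw [Ele_len]; exact i.2)]
  rfl

theorem Ele_nor (E : Em Q V) : E.rg.Normal :=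
  ⟨by
    rintro _ ⟨v, rfl⟩ q
    exact ⟨q • v, (E.cj q v).symm⟩⟩

theorem Ele_com (E : Em Q V) : ∀ x ∈ E.rg, ∀ y ∈ E.rg, x * y = y * x := by
  rintro _ ⟨v, rfl⟩ _ ⟨w, rfl⟩
  rw [← E.add, ← E.add, add_comm]

theorem Ele_push [Finite Q] (E : Em Q V) (x b b' : Q) (P M : List (Q × Q)) (p p' : Q × Q)
    (h : Ps E.rg ((Dp P)⁻¹ * x * Dp P) ((Dp P)⁻¹ * b * Dp P) [p] ((Dp P)⁻¹ * b' * Dp P) [p']) :
    Ps E.rg x b (P ++ ([p] ++ M)) b' (P ++ ([p'] ++ M)) := by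
  obtain ⟨-, -, -, h4, h5⟩ := bPsb E.rg (Ele_nor E)
  exact h5 _ _ _ _ _ _ (h4 _ _ _ _ _ M h)

theorem Ele_dp_mem (P L : List (Q × Q)) (h : ∀ p ∈ P, p ∈ L) : Dp P ∈ Gn L := by
  refine Subgroup.list_prod_mem _ fun q hq => ?_
  obtain ⟨p, hp, rfl⟩ := List.mem_map.1 hq
  have h1 : p.1 ∈ Gn L := Subgroup.subset_closure ⟨p, h p hp, Or.inl rfl⟩
  have h2 : p.2 ∈ Gn L := Subgroup.subset_closure ⟨p, h p hp, Or.inr rfl⟩
  exact Subgroup.mul_mem _ (Subgroup.mul_mem _ (Subgroup.mul_mem _ h1 h2)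
          (Subgroup.inv_mem _ h1)) (Subgroup.inv_mem _ h2)

end

theorem thm_Ele : St_Ele := by
  intro Q V _ _ _ _ E k R i
  obtain ⟨D, δ, hD, hδ, hDp⟩ := Ele_pre E R i i.2.le
  set α := (R i).1 with hα
  set β := (R i).2 with hβ
  have hsld := bSld E.rg (Ele_nor E) (Ele_com E)
  -- the element of the first and second slide
  have hb : ∀ (P : List (Q × Q)) (b : Q) (x : V),
      (Dp P)⁻¹ * b * Dp P * ((Dp P)⁻¹ * E.ι x * Dp P) * ((Dp P)⁻¹ * b * Dp P)⁻¹ =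
      (Dp P)⁻¹ * E.ι (b • x) * Dp P := by
    intro P b x
    rw [← E.cj b x]
    group
  have hmem : ∀ c, ((R i).1 * E.ι (c i).1, (R i).2 * E.ι (c i).2) ∈ mv E R c := fun c =>
    (List.mem_ofFn' _ _).2 ⟨i, rfl⟩
  let B₁ : (Fin k → V × V) →+ V := (act V D).comp ((act V α).comp (δ -
    (AddMonoidHom.fst V V).comp (Pi.evalAddMonoidHom (fun _ : Fin k => V × V) i)) - δ)
  let B₂ : (Fin k → V × V) →+ V := (act V D).comp ((act V β⁻¹).comp δ - δ +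
    (AddMonoidHom.snd V V).comp (Pi.evalAddMonoidHom (fun _ : Fin k => V × V) i))
  let η₁ : V →+ V := act V (D * α)⁻¹
  let η₂ : V →+ V := act V (β * D⁻¹)
  let κ₁ : V →+ (Fin k → V × V) := (AddMonoidHom.single (fun _ : Fin k => V × V) i).comp
    (((act V α⁻¹).comp η₁ - η₁).prod (-η₁))
  let κ₂ : V →+ (Fin k → V × V) := (AddMonoidHom.single (fun _ : Fin k => V × V) i).comp
    (((act V α⁻¹).comp (η₂ - (act V β⁻¹).comp η₂) - η₂).prod ((act V β⁻¹).comp η₂ - η₂))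
  have hB₁ : ∀ c, B₁ c = D • (α • (δ c - (c i).1) - δ c) := fun c => rfl
  have hB₂ : ∀ c, B₂ c = D • (β⁻¹ • δ c - δ c + (c i).2) := fun c => rfl
  have hκ₁ : ∀ v, κ₁ v = Pi.single i (α⁻¹ • ((D * α)⁻¹ • v) - (D * α)⁻¹ • v,
    -((D * α)⁻¹ • v)) := fun v => rfl
  have hκ₂ : ∀ v, κ₂ v = Pi.single i (α⁻¹ • ((β * D⁻¹) • v - β⁻¹ • (β * D⁻¹) • v) -
      (β * D⁻¹) • v, β⁻¹ • (β * D⁻¹) • v - (β * D⁻¹) • v) := fun v => rfl
  have e : ∀ (a : Q) (v w : V), a * E.ι v * (E.ι w * D⁻¹) = a * E.ι (v + w) * D⁻¹ := by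
    intro a v w
    rw [E.add]
    simp only [mul_assoc]
  -- the values of the words
  have hu₁ : ∀ c, D * α⁻¹ * D⁻¹ * E.ι (B₁ c) =
      Dp ((mv E R c).take i) * (α * E.ι (c i).1)⁻¹ * (Dp ((mv E R c).take i))⁻¹ := by
    intro c
    have h1 : D * α⁻¹ * D⁻¹ * E.ι (B₁ c) = D * α⁻¹ * E.ι (α • (δ c - (c i).1) - δ c) * D⁻¹ := by
      rw [hB₁, mul_assoc (D * α⁻¹), mul_assoc (D * α⁻¹), Ele_swap E _ D⁻¹, inv_inv]
    rw [hDp, Ele_inv, Ele_mul, mul_inv_rev, h1, ← E.neg, e, inv_inv]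
    congr 3
    rw [smul_sub]
    abel
  have hu₂ : ∀ c, D * β * D⁻¹ * E.ι (B₂ c) =
      Dp ((mv E R c).take i) * (β * E.ι (c i).2) * (Dp ((mv E R c).take i))⁻¹ := by
    intro c
    have h1 : D * β * D⁻¹ * E.ι (B₂ c) = D * β * E.ι (β⁻¹ • δ c - δ c + (c i).2) * D⁻¹ := by
      rw [hB₂, mul_assoc (D * β), mul_assoc (D * β), Ele_swap E _ D⁻¹, inv_inv]
    rw [hDp, Ele_mul, mul_inv_rev, h1, ← E.neg, e]
    congr 3
    abel
  refine ⟨D, δ, ⟨D * α⁻¹ * D⁻¹, κ₁, B₁, 0⟩, ⟨D * β * D⁻¹, κ₂, B₂, 0⟩, hD, hδ, ⟨?_, ?_⟩, rfl, rfl,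
    hB₁, hκ₁, ⟨?_, ?_⟩, rfl, rfl, hB₂, hκ₂⟩
  · intro x b c
    set P := (mv E R c).take i with hP
    set h := (D * α)⁻¹ • (b • x) with hh
    have hx : (Dp P)⁻¹ * E.ι x * Dp P ∈ E.rg := ⟨(Dp P)⁻¹ • x, (Ele_cj E _ _).symm⟩
    have hη : E.ι h = (α * E.ι (c i).1)⁻¹ *
        ((Dp P)⁻¹ * b * Dp P * ((Dp P)⁻¹ * E.ι x * Dp P) * ((Dp P)⁻¹ * b * Dp P)⁻¹) *
        (α * E.ι (c i).1) := by
      rw [hb, Ele_cj, Ele_cj, Ele_tr_inv, hDp, Ele_tr_inv, hh, mul_inv_rev, mul_smul]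
    have h1 := (hsld _ hx ((Dp P)⁻¹ * b * Dp P) (α * E.ι (c i).1) (β * E.ι (c i).2) (E.ι h)).1 hη
    have e1 : mv E R (c + κ₁ (b • x)) = P ++ ([(E.ι h * (α * E.ι (c i).1) * (E.ι h)⁻¹,
        β * E.ι (c i).2 * (E.ι h)⁻¹)] ++ (mv E R c).drop (i + 1)) := by
      rw [Ele_split E R i c (c + κ₁ (b • x)) (fun j hj => by
        rw [Pi.add_apply, hκ₁, Pi.single_eq_of_ne hj, add_zero])]
      have e2 : (c + κ₁ (b • x)) i = ((c i).1 + (α⁻¹ • h - h), (c i).2 + -h) := by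
        rw [Pi.add_apply, hκ₁, Pi.single_eq_same]
        rfl
      have e3 : E.ι h * (α * E.ι (c i).1) * (E.ι h)⁻¹ = α * E.ι ((c i).1 + (α⁻¹ • h - h)) := by
        rw [← mul_assoc, Ele_swap, mul_assoc α, ← E.add, mul_assoc α, ← E.neg, ← E.add]
        congr 2
        abel
      have e4 : β * E.ι (c i).2 * (E.ι h)⁻¹ = β * E.ι ((c i).2 + -h) := by
        rw [E.add, E.neg, mul_assoc]
      rw [e2, e3, e4]
    have e5 : mv E R c = P ++ ([(α * E.ι (c i).1, β * E.ι (c i).2)] ++ (mv E R c).drop (i + 1)) :=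
      Ele_split E R i c c (fun _ _ => rfl)
    have e6 := Ele_push E (E.ι x) b (D * α⁻¹ * D⁻¹ * E.ι (B₁ c) * b) P ((mv E R c).drop (i + 1))
      (α * E.ι (c i).1, β * E.ι (c i).2)
      (E.ι h * (α * E.ι (c i).1) * (E.ι h)⁻¹, β * E.ι (c i).2 * (E.ι h)⁻¹) (by
        have e7 : (Dp P)⁻¹ * (D * α⁻¹ * D⁻¹ * E.ι (B₁ c) * b) * Dp P =
            (α * E.ι (c i).1)⁻¹ * ((Dp P)⁻¹ * b * Dp P) := by
          rw [hu₁, ← hP]
          group
        rw [e7]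
        exact h1)
    rw [← e5, ← e1] at e6
    change Ps E.rg (E.ι x) b (mv E R c) (D * α⁻¹ * D⁻¹ * E.ι (B₁ c + 0) * b)
      (mv E R (c + κ₁ (b • x)))
    rw [add_zero]
    exact e6
  · intro c
    change D * α⁻¹ * D⁻¹ * E.ι (B₁ c) ∈ Gn (mv E R c)
    rw [hu₁]
    have h1 := Ele_dp_mem ((mv E R c).take i) (mv E R c) (fun p hp => List.mem_of_mem_take hp)
    have h2 : α * E.ι (c i).1 ∈ Gn (mv E R c) := Subgroup.subset_closure ⟨_, hmem c, Or.inl rfl⟩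
    exact Subgroup.mul_mem _ (Subgroup.mul_mem _ h1 (Subgroup.inv_mem _ h2))
      (Subgroup.inv_mem _ h1)
  · intro x b c
    set P := (mv E R c).take i with hP
    set h := (β * D⁻¹) • (b • x) with hh
    have hx : (Dp P)⁻¹ * E.ι x * Dp P ∈ E.rg := ⟨(Dp P)⁻¹ • x, (Ele_cj E _ _).symm⟩
    have hη : E.ι h = (β * E.ι (c i).2) *
        ((Dp P)⁻¹ * b * Dp P * ((Dp P)⁻¹ * E.ι x * Dp P) * ((Dp P)⁻¹ * b * Dp P)⁻¹) *
        (β * E.ι (c i).2)⁻¹ := by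
      rw [hb, Ele_cj, E.cj, Ele_tr, hDp, Ele_tr_inv, hh, mul_smul]
    have h1 := (hsld _ hx ((Dp P)⁻¹ * b * Dp P) (α * E.ι (c i).1) (β * E.ι (c i).2) (E.ι h)).2 hη
    have e1 : mv E R (c + κ₂ (b • x)) = P ++ ([(E.ι h * (β * E.ι (c i).2)⁻¹ * (E.ι h)⁻¹ *
        (β * E.ι (c i).2) * (α * E.ι (c i).1) * (E.ι h)⁻¹,
        E.ι h * (β * E.ι (c i).2) * (E.ι h)⁻¹)] ++ (mv E R c).drop (i + 1)) := by
      rw [Ele_split E R i c (c + κ₂ (b • x)) (fun j hj => by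
        rw [Pi.add_apply, hκ₂, Pi.single_eq_of_ne hj, add_zero])]
      have e2 : (c + κ₂ (b • x)) i = ((c i).1 + (α⁻¹ • (h - β⁻¹ • h) - h),
          (c i).2 + (β⁻¹ • h - h)) := by
        rw [Pi.add_apply, hκ₂, Pi.single_eq_same]
        rfl
      have e4 : E.ι h * (β * E.ι (c i).2) * (E.ι h)⁻¹ = β * E.ι ((c i).2 + (β⁻¹ • h - h)) := by
        rw [← mul_assoc, Ele_swap, mul_assoc β, ← E.add, mul_assoc β, ← E.neg, ← E.add]
        congr 2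
        abel
      have e3 : E.ι h * (β * E.ι (c i).2)⁻¹ * (E.ι h)⁻¹ * (β * E.ι (c i).2) *
          (α * E.ι (c i).1) * (E.ι h)⁻¹ =
          α * E.ι ((c i).1 + (α⁻¹ • (h - β⁻¹ • h) - h)) := by
        have e8 : E.ι h * (β * E.ι (c i).2)⁻¹ * (E.ι h)⁻¹ * (β * E.ι (c i).2) =
            E.ι (h - β⁻¹ • h) := by
          rw [mul_assoc, mul_assoc, ← mul_assoc _ (E.ι h)⁻¹, ← E.neg, Ele_cj, Ele_tr_inv, ← E.add,
            smul_neg, ← sub_eq_add_neg]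
        rw [e8, ← mul_assoc, Ele_swap, mul_assoc α, ← E.add, mul_assoc α, ← E.neg, ← E.add]
        congr 2
        abel
      rw [e2, e3, e4]
    have e5 : mv E R c = P ++ ([(α * E.ι (c i).1, β * E.ι (c i).2)] ++ (mv E R c).drop (i + 1)) :=
      Ele_split E R i c c (fun _ _ => rfl)
    have e6 := Ele_push E (E.ι x) b (D * β * D⁻¹ * E.ι (B₂ c) * b) P ((mv E R c).drop (i + 1))
      (α * E.ι (c i).1, β * E.ι (c i).2)
      (E.ι h * (β * E.ι (c i).2)⁻¹ * (E.ι h)⁻¹ * (β * E.ι (c i).2) * (α * E.ι (c i).1) * (E.ι h)⁻¹,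
        E.ι h * (β * E.ι (c i).2) * (E.ι h)⁻¹) (by
        have e7 : (Dp P)⁻¹ * (D * β * D⁻¹ * E.ι (B₂ c) * b) * Dp P =
            (β * E.ι (c i).2) * ((Dp P)⁻¹ * b * Dp P) := by
          rw [hu₂, ← hP]
          group
        rw [e7]
        exact h1)
    rw [← e5, ← e1] at e6
    change Ps E.rg (E.ι x) b (mv E R c) (D * β * D⁻¹ * E.ι (B₂ c + 0) * b)
      (mv E R (c + κ₂ (b • x)))
    rw [add_zero]
    exact e6
  · intro c
    change D * β * D⁻¹ * E.ι (B₂ c) ∈ Gn (mv E R c)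
    rw [hu₂]
    have h1 := Ele_dp_mem ((mv E R c).take i) (mv E R c) (fun p hp => List.mem_of_mem_take hp)
    have h2 : β * E.ι (c i).2 ∈ Gn (mv E R c) := Subgroup.subset_closure ⟨_, hmem c, Or.inr rfl⟩
    exact Subgroup.mul_mem _ (Subgroup.mul_mem _ h1 h2) (Subgroup.inv_mem _ h1)

end Pool.Agent.PWH
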