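import Pool.Agent.PWH.Base

/-!
# Campaign PWH, module Elm: consequences of the elementary paths
-/

set_option autoImplicit false

namespace Pool.Agent.PWH

open Pool.Agent.PW Pool.Agent.PWM Pool.Agent.PWB Pool.Agent.PWX Pool.Agent.PWF

section

variable {Q V : Type} [Group Q] [AddCommGroup V] [DistribMulAction Q V]

theorem Elm_conj (E : Em Q V) (q : Q) {x : Q} (hx : x ∈ E.rg) : q * x * q⁻¹ ∈ E.rg := by
  obtain ⟨v, rfl⟩ := hx
  exact ⟨q • v, (E.cj q v).symm⟩

theorem Elm_conj' (E : Em Q V) (q : Q) {x : Q} (hx : x ∈ E.rg) : q⁻¹ * x * q ∈ E.rg := by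
  have h := Elm_conj E q⁻¹ hx
  rwa [inv_inv] at h

end

theorem thm_Elm (hCmp : St_Cmp) (hRev : St_Rev) (hEle : St_Ele) : St_Elm := by
  intro Q V _ _ _ _ E k R
  refine ⟨fun c => ?_, fun c hc => ?_, fun htop q => ?_⟩
  · -- the values of `κ` generate everything
    set A : AddSubgroup (Fin k → V × V) :=
      AddSubgroup.closure {z | ∃ t : Dt Q V k, Vd E R t ∧ ∃ v, t.κ v = z} with hA
    have hsingle : ∀ (i : Fin k) (z z' : V), (Pi.single i (z, z') : Fin k → V × V) ∈ A := by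
      intro i z z'
      obtain ⟨D, δ, s, t, -, -, hs, -, -, -, hsκ, ht, -, -, -, htκ⟩ := hEle E R i
      set α := (R i).1 with hα
      set β := (R i).2 with hβ
      let η₂ : V := -(β • (z + (α⁻¹ • z' - z')))
      let η₁ : V := -z' + (β⁻¹ • η₂ - η₂)
      have h1 : s.κ ((D * α) • η₁) ∈ A := AddSubgroup.subset_closure ⟨s, hs, _, rfl⟩
      have h2 : t.κ ((D * β⁻¹) • η₂) ∈ A := AddSubgroup.subset_closure ⟨t, ht, _, rfl⟩
      have h3 := add_mem h1 h2
      have e1 : (D * α)⁻¹ • (D * α) • η₁ = η₁ := inv_smul_smul _ _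
      have e2 : (β * D⁻¹) • (D * β⁻¹) • η₂ = η₂ := by
        rw [smul_smul]
        have : β * D⁻¹ * (D * β⁻¹) = 1 := by group
        rw [this, one_smul]
      rw [hsκ, htκ, e1, e2, ← Pi.single_add] at h3
      have e3 : β⁻¹ • η₂ = -(z + (α⁻¹ • z' - z')) := by
        change β⁻¹ • (-(β • (z + (α⁻¹ • z' - z')))) = _
        rw [smul_neg, inv_smul_smul]
      have e4 : ((α⁻¹ • η₁ - η₁, -η₁) + (α⁻¹ • (η₂ - β⁻¹ • η₂) - η₂, β⁻¹ • η₂ - η₂) : V × V) =
          (z, z') := by
        refine Prod.ext ?_ ?_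
        · change α⁻¹ • η₁ - η₁ + (α⁻¹ • (η₂ - β⁻¹ • η₂) - η₂) = z
          have e5 : α⁻¹ • η₁ = -(α⁻¹ • z') + (α⁻¹ • (β⁻¹ • η₂) - α⁻¹ • η₂) := by
            change α⁻¹ • (-z' + (β⁻¹ • η₂ - η₂)) = _
            rw [smul_add, smul_neg, smul_sub]
          rw [e5, smul_sub]
          change -(α⁻¹ • z') + (α⁻¹ • (β⁻¹ • η₂) - α⁻¹ • η₂) - (-z' + (β⁻¹ • η₂ - η₂)) +
            (α⁻¹ • η₂ - α⁻¹ • (β⁻¹ • η₂) - η₂) = z
          have e6 : -(α⁻¹ • z') + (α⁻¹ • (β⁻¹ • η₂) - α⁻¹ • η₂) - (-z' + (β⁻¹ • η₂ - η₂)) +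
            (α⁻¹ • η₂ - α⁻¹ • (β⁻¹ • η₂) - η₂) = -(α⁻¹ • z') + z' - β⁻¹ • η₂ := by abel
          rw [e6, e3]
          abel
        · change -η₁ + (β⁻¹ • η₂ - η₂) = z'
          change -(-z' + (β⁻¹ • η₂ - η₂)) + (β⁻¹ • η₂ - η₂) = z'
          abel
      rwa [e4] at h3
    have hsum : c = ∑ i, (Pi.single i (c i) : Fin k → V × V) := by
      rw [Finset.univ_sum_single]
    rw [hsum]
    exact sum_mem fun i _ => hsingle i (c i).1 (c i).2
  · -- the maps `B` separate
    have h : ∀ m : ℕ, ∀ i : Fin k, (i : ℕ) = m → c i = 0 := by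
      intro m
      induction m using Nat.strong_induction_on with
      | _ m ih =>
        intro i him
        obtain ⟨D, δ, s, t, -, hδ, hs, -, -, hsB, -, ht, -, -, htB, -⟩ := hEle E R i
        have hδ0 : δ c = 0 := hδ c fun j hj => ih j (by omega) j rfl
        have h1 := hc s hs
        have h2 := hc t ht
        rw [hsB, hδ0, zero_sub, sub_zero, smul_neg, smul_neg, neg_eq_zero] at h1
        rw [htB, hδ0, smul_zero, sub_zero, zero_add] at h2
        have h3 : (c i).1 = 0 := by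
          have h4 := congrArg (fun w => (R i).1⁻¹ • D⁻¹ • w) h1
          simpa using h4
        have h5 : (c i).2 = 0 := by
          have h4 := congrArg (fun w => D⁻¹ • w) h2
          simpa using h4
        exact Prod.ext h3 h5
    funext i
    exact h i i rfl
  · -- every element is the value of a path modulo `V`
    obtain ⟨hid, hcmp⟩ := hCmp E R
    let H : Subgroup Q :=
      { carrier := {q | ∃ t : Dt Q V k, Vd E R t ∧ q⁻¹ * t.u ∈ E.rg}
        one_mem' := ⟨⟨1, 0, 0, 0⟩, hid, by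
          change (1 : Q)⁻¹ * 1 ∈ E.rg
          rw [inv_one, one_mul]
          exact one_mem _⟩
        mul_mem' := by
          rintro a b ⟨s, hs, hsa⟩ ⟨t, ht, htb⟩
          refine ⟨cmp t s, hcmp t s ht hs, ?_⟩
          change (a * b)⁻¹ * (s.u * t.u) ∈ E.rg
          have e : (a * b)⁻¹ * (s.u * t.u) = (b⁻¹ * (a⁻¹ * s.u) * b) * (b⁻¹ * t.u) := by group
          rw [e]
          exact mul_mem (Elm_conj' E b hsa) htb
        inv_mem' := by
          rintro a ⟨s, hs, hsa⟩
          refine ⟨rev s, hRev E R s hs, ?_⟩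
          change (a⁻¹)⁻¹ * s.u⁻¹ ∈ E.rg
          have e : (a⁻¹)⁻¹ * s.u⁻¹ = a * (a⁻¹ * s.u)⁻¹ * a⁻¹ := by group
          rw [e]
          exact Elm_conj E a (inv_mem hsa) }
    have hval : ∀ t : Dt Q V k, Vd E R t → t.u ∈ H := fun t ht => ⟨t, ht, by
      rw [inv_mul_cancel]
      exact one_mem _⟩
    have hE : E.rg ≤ H := fun x hx => ⟨⟨1, 0, 0, 0⟩, hid, by
      change x⁻¹ * 1 ∈ E.rg
      rw [mul_one]
      exact inv_mem hx⟩
    have hent : ∀ m : ℕ, ∀ i : Fin k, (i : ℕ) = m → (R i).1 ∈ H ∧ (R i).2 ∈ H := by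
      intro m
      induction m using Nat.strong_induction_on with
      | _ m ih =>
        intro i him
        obtain ⟨D, δ, s, t, hD, -, hs, hsu, -, -, -, ht, htu, -, -, -⟩ := hEle E R i
        have hDH : D ∈ H := by
          refine (Subgroup.closure_le H).2 ?_ hD
          rintro x ⟨j, hj, hx⟩
          have h1 := ih j (by omega) j rfl
          rcases hx with rfl | rfl
          · exact h1.1
          · exact h1.2
        have h1 := hval s hs
        have h2 := hval t ht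
        rw [hsu] at h1
        rw [htu] at h2
        constructor
        · have e : (R i).1 = (D⁻¹ * (D * (R i).1⁻¹ * D⁻¹) * D)⁻¹ := by group
          rw [e]
          exact inv_mem (mul_mem (mul_mem (inv_mem hDH) h1) hDH)
        · have e : (R i).2 = D⁻¹ * (D * (R i).2 * D⁻¹) * D := by group
          rw [e]
          exact mul_mem (mul_mem (inv_mem hDH) h2) hDH
    have hGn : Gn (List.ofFn R) ≤ H := by
      unfold Gn
      rw [Subgroup.closure_le]
      rintro x ⟨p, hp, hx⟩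
      rw [List.mem_ofFn] at hp
      obtain ⟨i, rfl⟩ := hp
      have h1 := hent i i rfl
      rcases hx with rfl | rfl
      · exact h1.1
      · exact h1.2
    have hq : q ∈ Gn (List.ofFn R) ⊔ E.rg := by
      rw [htop]
      exact Subgroup.mem_top q
    exact (sup_le hGn hE) hq

end Pool.Agent.PWH
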