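import Pool.Agent.PWH.Base

/-!
# Campaign PWH: all the handles of a list with values in `V` are killed
-/

set_option autoImplicit false

namespace Pool.Agent.PWH

open Pool.Agent.PW Pool.Agent.PWM Pool.Agent.PWB Pool.Agent.PWX Pool.Agent.PWF

theorem Its2_dead {Q : Type} [Group Q] (l : List (Q × Q)) :
    LG (l ++ [((1 : Q), (1 : Q))]) ((1, 1) :: l) := by
  obtain ⟨hrefl, htrans, -, happ, hswap, -, -⟩ := bBas
  induction l with
  | nil => exact hrefl _
  | cons p l ih =>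
    have h1 := happ [p] _ _ [] ih
    have h2 := happ [] _ _ l (hswap p ((1 : Q), (1 : Q)))
    have h3 : cj (dd ((1 : Q), (1 : Q)))⁻¹ p = p := by
      simp [cj, dd]
    rw [h3] at h2
    refine htrans _ _ _ ?_ (by simpa using h2)
    simpa using h1

theorem Its2_back {Q : Type} [Group Q] {V : Subgroup Q} (hV : Mn V) (p : Q × Q)
    (l : List (Q × Q)) (hl : ∀ q ∈ l, In V q) : LG (p :: l) (l ++ [p]) := by
  obtain ⟨hrefl, htrans, -, happ, hswap, -, -⟩ := bBas
  induction l with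
  | nil => exact hrefl _
  | cons q l ih =>
    have h1 := happ [q] _ _ [] (ih fun r hr => hl r (by simp [hr]))
    have h2 := happ [] _ _ l (hswap p q)
    have hq : In V q := hl q (by simp)
    have hd : dd q = 1 := by
      unfold dd
      rw [hV.com q.1 hq.1 q.2 hq.2]
      group
    have h3 : cj (dd q)⁻¹ p = p := by
      rw [hd]
      simp [cj]
    rw [h3] at h2
    refine htrans _ (q :: p :: l) _ (by simpa using h2) ?_
    simpa using h1

theorem Its2_step {Q : Type} [Group Q] (Ts : List (Q × Q)) (T : Q × Q)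
    (L L1 L2 : List (Q × Q)) (h1 : LG (T :: L) ((1, 1) :: L1))
    (h2 : LG (Ts ++ L1) (List.replicate Ts.length ((1 : Q), (1 : Q)) ++ L2)) :
    LG (Ts ++ T :: L) (List.replicate (Ts.length + 1) ((1 : Q), (1 : Q)) ++ L2) := by
  obtain ⟨hrefl, htrans, -, happ, hswap, -, -⟩ := bBas
  have e1 := happ Ts _ _ [] h1
  have e2 := happ [] _ _ L1 (Its2_dead Ts)
  have e3 := happ [((1 : Q), (1 : Q))] _ _ [] h2
  have f1 : LG (Ts ++ T :: L) (Ts ++ ((1 : Q), (1 : Q)) :: L1) := by simpa using e1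
  have f2 : LG (Ts ++ ((1 : Q), (1 : Q)) :: L1) ((1, 1) :: (Ts ++ L1)) := by simpa using e2
  have f3 : LG ((((1 : Q), (1 : Q))) :: (Ts ++ L1))
      (List.replicate (Ts.length + 1) ((1 : Q), (1 : Q)) ++ L2) := by
    rw [List.replicate_succ]
    simpa using e3
  exact htrans _ _ _ f1 (htrans _ _ _ f2 f3)

theorem Its2_go (hAbs : St_Abs) {Q : Type} [Group Q] [Finite Q] (V : Subgroup Q) (hV : Mn V)
    (d : ℕ) (hS : ∃ S : Finset Q, S.card ≤ d ∧ Subgroup.closure (S : Set Q) ⊔ V = ⊤)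
    (Ts : List (Q × Q)) (hTs : ∀ p ∈ Ts, In V p) :
    ∀ L : List (Q × Q), d + 2 ≤ L.length → Gn L = ⊤ →
    ∃ L', Eqv V L L' ∧ Gn L' = ⊤ ∧
      LG (Ts ++ L) (List.replicate Ts.length ((1 : Q), (1 : Q)) ++ L') := by
  obtain ⟨erefl, -, etrans, elen, -, -⟩ := bEqb V hV.nor
  induction Ts using List.reverseRecOn with
  | nil =>
    intro L _ hL
    refine ⟨L, erefl L, hL, ?_⟩
    simpa using bBas.1 L
  | append_singleton Ts T ih =>
    intro L hlen hL
    have hT : In V T := hTs T (by simp)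
    have hex : ∃ L1, Eqv V L L1 ∧ Gn L1 = ⊤ ∧ LG (T :: L) ((1, 1) :: L1) := by
      by_cases h1 : T = (1, 1)
      · refine ⟨L, erefl L, hL, ?_⟩
        rw [h1]
        exact bBas.1 _
      · exact hAbs V hV d L hlen (by rw [hL, top_sup_eq]) hS T.1 hT.1 T.2 hT.2 h1
    obtain ⟨L1, hL1, hG1, hg1⟩ := hex
    have hl1 := (elen L L1 hL1).1
    obtain ⟨L2, hL2, hG2, hg2⟩ := ih (fun p hp => hTs p (by simp [hp])) L1
      (by omega) hG1
    refine ⟨L2, etrans L L1 L2 hL1 hL2, hG2, ?_⟩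
    have h := Its2_step Ts T L L1 L2 hg1 hg2
    simpa using h

theorem thm_Its2 (hAbs : St_Abs) : St_Its2 := by
  intro Q _ _ V hV d Ts L hTs hlen hGn hS hlive
  obtain ⟨erefl, -, etrans, elen, -, -⟩ := bEqb V hV.nor
  obtain ⟨hrefl, htrans, -, happ, hswap, -, -⟩ := id bBas
  rcases hlive with ⟨p, hp, hp1⟩ | hG
  · obtain ⟨A, B, rfl⟩ := List.append_of_mem hp
    have hpV : In V p := hTs p hp
    obtain ⟨L1, hL1, hG1, hg1⟩ := hAbs V hV d L hlen hGn hS p.1 hpV.1 p.2 hpV.2 hp1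
    have hl1 := (elen L L1 hL1).1
    have hAB : ∀ q ∈ A ++ B, In V q := by
      intro q hq
      refine hTs q ?_
      rcases List.mem_append.1 hq with h | h
      · simp [h]
      · simp [h]
    obtain ⟨L2, hL2, hG2, hg2⟩ := Its2_go hAbs V hV d hS (A ++ B) hAB L1 (by omega) hG1
    refine ⟨L2, etrans L L1 L2 hL1 hL2, hG2, ?_⟩
    have h := Its2_step (A ++ B) p L L1 L2 hg1 hg2
    have hb := happ A _ _ L (Its2_back hV p B fun q hq => hTs q (by simp [hq]))
    have hb' : LG ((A ++ p :: B) ++ L) ((A ++ B) ++ p :: L) := by simpa using hb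
    have hlen' : (A ++ p :: B).length = (A ++ B).length + 1 := by
      simp
      omega
    rw [hlen']
    exact htrans _ _ _ hb' h
  · exact Its2_go hAbs V hV d hS Ts hTs L hlen hG

end Pool.Agent.PWH
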