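import Pool.Agent.PWH.Base
import Pool.Agent.PWB.KPush

/-!
# Campaign PWH, module Lvl2: one abelian chief factor
-/

set_option autoImplicit false

namespace Pool.Agent.PWH

open Pool.Agent.PW Pool.Agent.PWM Pool.Agent.PWB Pool.Agent.PWX Pool.Agent.PWF

section

variable {Q : Type} [Group Q]

/-- the image of a pair -/
private def Lvl2_m (M : Subgroup Q) [M.Normal] (p : Q × Q) : (Q ⧸ M) × (Q ⧸ M) :=
  (QuotientGroup.mk' M p.1, QuotientGroup.mk' M p.2)

private theorem Lvl2_Gn (M : Subgroup Q) [M.Normal] (L : List (Q × Q)) :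
    Gn (L.map (Lvl2_m M)) = (Gn L).map (QuotientGroup.mk' M) := by
  unfold Gn
  rw [MonoidHom.map_closure]
  congr 1
  ext x
  simp only [Set.mem_ofPred_eq, List.mem_map, Set.mem_image]
  constructor
  · rintro ⟨p, ⟨q, hq, rfl⟩, h | h⟩
    · exact ⟨q.1, ⟨q, hq, Or.inl rfl⟩, h.symm⟩
    · exact ⟨q.2, ⟨q, hq, Or.inr rfl⟩, h.symm⟩
  · rintro ⟨y, ⟨p, hp, h | h⟩, rfl⟩
    · exact ⟨Lvl2_m M p, ⟨p, hp, rfl⟩, Or.inl (by rw [h]; rfl)⟩
    · exact ⟨Lvl2_m M p, ⟨p, hp, rfl⟩, Or.inr (by rw [h]; rfl)⟩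

private theorem Lvl2_mem {M A : Subgroup Q} [M.Normal] (hMA : M ≤ A) {x : Q}
    (h : QuotientGroup.mk' M x ∈ A.map (QuotientGroup.mk' M)) : x ∈ A := by
  obtain ⟨a, ha, h1⟩ := h
  have h2 : a⁻¹ * x ∈ M := by
    have h3 : (a : Q ⧸ M) = x := h1
    exact QuotientGroup.eq.1 h3
  have h4 : x = a * (a⁻¹ * x) := by group
  rw [h4]
  exact A.mul_mem ha (hMA h2)

private theorem Lvl2_comap {M A : Subgroup Q} [M.Normal] (hMA : M ≤ A) :
    (A.map (QuotientGroup.mk' M)).comap (QuotientGroup.mk' M) = A := by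
  apply le_antisymm
  · intro x hx
    exact Lvl2_mem hMA hx
  · exact Subgroup.le_comap_map _ _

private theorem Lvl2_map_comap (M : Subgroup Q) [M.Normal] (H : Subgroup (Q ⧸ M)) :
    (H.comap (QuotientGroup.mk' M)).map (QuotientGroup.mk' M) = H :=
  Subgroup.map_comap_eq_self_of_surjective (QuotientGroup.mk'_surjective M) H

private theorem Lvl2_le_comap (M : Subgroup Q) [M.Normal] (H : Subgroup (Q ⧸ M)) :
    M ≤ H.comap (QuotientGroup.mk' M) := by
  intro x hx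
  have h1 : QuotientGroup.mk' M x = 1 := (QuotientGroup.eq_one_iff x).2 hx
  rw [Subgroup.mem_comap, h1]
  exact H.one_mem

private theorem Lvl2_Mn {A M : Subgroup Q} (hA : A.Normal) [M.Normal] (hMA : M ≤ A)
    (hab : ∀ x ∈ A, ∀ y ∈ A, x * y * x⁻¹ * y⁻¹ ∈ M)
    (hmin : ∀ L : Subgroup Q, L.Normal → M ≤ L → L ≤ A → L = M ∨ L = A) :
    Mn (A.map (QuotientGroup.mk' M)) := by
  refine ⟨hA.map _ (QuotientGroup.mk'_surjective M), ?_, ?_⟩
  · rintro _ ⟨x, hx, rfl⟩ _ ⟨y, hy, rfl⟩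
    have h1 : QuotientGroup.mk' M (x * y * x⁻¹ * y⁻¹) = 1 :=
      (QuotientGroup.eq_one_iff _).2 (hab x hx y hy)
    rw [map_mul, map_mul, map_mul, map_inv, map_inv] at h1
    rw [mul_inv_eq_one, mul_inv_eq_iff_eq_mul] at h1
    exact h1
  · intro L hL hLA
    have h1 : (L.comap (QuotientGroup.mk' M)).Normal := hL.comap _
    have h2 : L.comap (QuotientGroup.mk' M) ≤ A := by
      intro x hx
      exact Lvl2_mem hMA (hLA hx)
    rcases hmin _ h1 (Lvl2_le_comap M L) h2 with h3 | h3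
    · left
      rw [← Lvl2_map_comap M L, h3, Subgroup.map_eq_bot_iff, QuotientGroup.ker_mk']
    · right
      rw [← Lvl2_map_comap M L, h3]

private theorem Lvl2_vls (M : Subgroup Q) [M.Normal] {g n : ℕ} (ρ : F g n →* Q) (l : ℕ) :
    vls ((QuotientGroup.mk' M).comp ρ) l = Lvl2_m M (vls ρ l) := by
  unfold vls Lvl2_m
  by_cases h : l < g
  · rw [dif_pos h, dif_pos h]
    rfl
  · rw [dif_neg h, dif_neg h]
    rfl

private theorem Lvl2_lst (M : Subgroup Q) [M.Normal] {g n : ℕ} (ρ : F g n →* Q) (m k : ℕ) :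
    lst ((QuotientGroup.mk' M).comp ρ) m k = (lst ρ m k).map (Lvl2_m M) := by
  unfold lst
  rw [List.map_map]
  congr 1
  funext i
  exact Lvl2_vls M ρ (m + i)

private theorem Lvl2_len_lst {g n : ℕ} (ρ : F g n →* Q) (m k : ℕ) : (lst ρ m k).length = k := by
  unfold lst
  rw [List.length_map, List.length_range]

private theorem Lvl2_get {g n : ℕ} (ρ : F g n →* Q) (m k i : ℕ)
    (hi : i < (lst ρ m k).length) : (lst ρ m k)[i] = vls ρ (m + i) := by
  simp only [lst, List.getElem_map, List.getElem_range]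

private theorem Lvl2_app {g n : ℕ} (ρ : F g n →* Q) (h k : ℕ) :
    lst ρ 0 (h + k) = lst ρ 0 h ++ lst ρ h k := by
  unfold lst
  rw [List.range_add, List.map_append, List.map_map]
  congr 1
  apply List.map_congr_left
  intro i _
  show vls ρ (0 + (h + i)) = vls ρ (h + i)
  rw [zero_add]

end

/-- The letters of the handles `≥ h` generate the group if the others are dead. -/
private theorem Lvl2_top {Q : Type} [Group Q] {g n h : ℕ} (ρ : F g n →* Q)
    (hρ : Function.Surjective ρ) (hI : Inv h ⊥ ρ) (q : Q) : ∃ y ∈ Fge g n h, ρ y = q := by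
  have h2 : ∀ w : F g n, ρ w ∈ (Fge g n h).map ρ := by
    intro w
    induction w using FreeGroup.induction_on with
    | C1 =>
      rw [map_one]
      exact Subgroup.one_mem _
    | of x =>
      cases x with
      | a i =>
        by_cases hi : (i : ℕ) < h
        · have h3 := Subgroup.mem_bot.mp (hI i hi).1
          change ρ (ga i) ∈ _
          rw [h3]
          exact Subgroup.one_mem _
        · refine Subgroup.mem_map_of_mem ρ ?_
          exact Subgroup.subset_closure (Or.inl ⟨i, not_lt.mp hi, Or.inl rfl⟩)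
      | b i =>
        by_cases hi : (i : ℕ) < h
        · have h3 := Subgroup.mem_bot.mp (hI i hi).2
          change ρ (gb i) ∈ _
          rw [h3]
          exact Subgroup.one_mem _
        · refine Subgroup.mem_map_of_mem ρ ?_
          exact Subgroup.subset_closure (Or.inl ⟨i, not_lt.mp hi, Or.inr rfl⟩)
      | c j =>
        refine Subgroup.mem_map_of_mem ρ ?_
        exact Subgroup.subset_closure (Or.inr ⟨j, rfl⟩)
    | inv_of x ih =>
      rw [map_inv]
      exact Subgroup.inv_mem _ ih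
    | mul x y hx hy =>
      rw [map_mul]
      exact Subgroup.mul_mem _ hx hy
  obtain ⟨w, rfl⟩ := hρ q
  obtain ⟨y, hy, hyq⟩ := h2 w
  exact ⟨y, hy, hyq⟩

section

variable {Q : Type} [Group Q]

private theorem Lvl2_sup (M H : Subgroup Q) [M.Normal] :
    (H.map (QuotientGroup.mk' M)).comap (QuotientGroup.mk' M) = H ⊔ M := by
  rw [Subgroup.comap_map_eq, QuotientGroup.ker_mk']

private theorem Lvl2_map_top {M A : Subgroup Q} [M.Normal] {H : Subgroup Q} (h : H ⊔ A = ⊤) :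
    H.map (QuotientGroup.mk' M) ⊔ A.map (QuotientGroup.mk' M) = ⊤ := by
  rw [← Subgroup.map_sup, h]
  exact Subgroup.map_top_of_surjective _ (QuotientGroup.mk'_surjective M)

private theorem Lvl2_vls_mem {g n : ℕ} (ρ : F g n →* Q) (m k : ℕ) (p : Q × Q)
    (hp : p ∈ lst ρ m k) : ∃ i < k, p = vls ρ (m + i) := by
  unfold lst at hp
  obtain ⟨i, hi, rfl⟩ := List.mem_map.1 hp
  exact ⟨i, List.mem_range.1 hi, rfl⟩

end

/-- The case of a live handle. -/
private theorem Lvl2_live (hIts : St_Its2) {Q : Type} [Group Q] [Finite Q] {g n h d : ℕ}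
    (hg : h + (d + 2) ≤ g) (A M : Subgroup Q) (hA : A.Normal) [M.Normal] (hMA : M ≤ A)
    (hab : ∀ x ∈ A, ∀ y ∈ A, x * y * x⁻¹ * y⁻¹ ∈ M)
    (hmin : ∀ L : Subgroup Q, L.Normal → M ≤ L → L ≤ A → L = M ∨ L = A)
    (hS : ∃ S : Finset Q, S.card ≤ d ∧ Subgroup.closure (S : Set Q) ⊔ A = ⊤)
    (ρ : F g n →* Q) (hρ : Stt ρ h (d + 2) A)
    (hlive : (∃ p ∈ lst ((QuotientGroup.mk' M).comp ρ) 0 h, p ≠ (1, 1)) ∨
      Gn (lst ((QuotientGroup.mk' M).comp ρ) h (d + 2)) = ⊤) :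
    ∃ φ ∈ MCG g n, Stt (ρ.comp (MulEquiv.toMonoidHom φ)) h (d + 2) M := by
  classical
  obtain ⟨hInv, hStr⟩ := hρ
  have hMn := Lvl2_Mn hA hMA hab hmin
  have hTs : ∀ p ∈ lst ((QuotientGroup.mk' M).comp ρ) 0 h,
      In (A.map (QuotientGroup.mk' M)) p := by
    intro p hp
    obtain ⟨i, hi, rfl⟩ := Lvl2_vls_mem _ _ _ _ hp
    rw [Lvl2_vls]
    have hig : 0 + i < g := by omega
    have h1 : vls ρ (0 + i) = (ρ (ga ⟨0 + i, hig⟩), ρ (gb ⟨0 + i, hig⟩)) := by
      unfold vls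
      rw [dif_pos hig]
    rw [h1]
    obtain ⟨h2, h3⟩ := hInv ⟨0 + i, hig⟩ (by simpa using hi)
    exact ⟨⟨_, h2, rfl⟩, ⟨_, h3, rfl⟩⟩
  have hG : Gn (lst ((QuotientGroup.mk' M).comp ρ) h (d + 2)) ⊔
      A.map (QuotientGroup.mk' M) = ⊤ := by
    rw [Lvl2_lst, Lvl2_Gn]
    exact Lvl2_map_top hStr
  have hS' : ∃ S : Finset (Q ⧸ M), S.card ≤ d ∧
      Subgroup.closure (S : Set (Q ⧸ M)) ⊔ A.map (QuotientGroup.mk' M) = ⊤ := by
    obtain ⟨S, hSd, hS⟩ := hS
    refine ⟨S.image (QuotientGroup.mk' M), Finset.card_image_le.trans hSd, ?_⟩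
    rw [Finset.coe_image, ← MonoidHom.map_closure]
    exact Lvl2_map_top hS
  obtain ⟨L', -, hL', hLG⟩ := hIts _ hMn d _ _ hTs (by rw [Lvl2_len_lst]) hG hS' hlive
  rw [← Lvl2_app, Lvl2_len_lst] at hLG
  obtain ⟨φ, hφ, h1, -⟩ := bRea _ _ (by omega) hLG
  rw [Lvl2_app] at h1
  refine ⟨φ, hφ, ?_, ?_⟩
  · -- the first handles
    have h2 := (List.append_inj h1 (by rw [Lvl2_len_lst, List.length_replicate])).1
    intro i hi
    have h3 : (i : ℕ) < (lst (((QuotientGroup.mk' M).comp ρ).comp (MulEquiv.toMonoidHom φ))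
        0 h).length := by
      rw [Lvl2_len_lst]
      exact hi
    have h4 : (lst (((QuotientGroup.mk' M).comp ρ).comp (MulEquiv.toMonoidHom φ)) 0 h)[(i : ℕ)] =
        (1, 1) := by
      simp only [h2, List.getElem_replicate]
    rw [Lvl2_get] at h4
    unfold vls at h4
    rw [dif_pos (by omega)] at h4
    have h5 : (⟨0 + (i : ℕ), by omega⟩ : Fin g) = i := Fin.ext (by simp)
    rw [h5, Prod.mk.injEq] at h4
    exact ⟨(QuotientGroup.eq_one_iff _).1 h4.1, (QuotientGroup.eq_one_iff _).1 h4.2⟩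
  · -- the block
    have h2 := (List.append_inj h1 (by rw [Lvl2_len_lst, List.length_replicate])).2
    rw [← h2, MonoidHom.comp_assoc, Lvl2_lst, Lvl2_Gn] at hL'
    rw [← Lvl2_sup, hL', Subgroup.comap_top]

theorem thm_Lvl2 (hIts2 : St_Its2) : St_Lvl2 := by
  intro Q _ _ g n h d h0 hg A M hA hM hMA hab hmin hS ρ hsurj hρ
  by_cases hlive : (∃ p ∈ lst ((QuotientGroup.mk' M).comp ρ) 0 h, p ≠ (1, 1)) ∨
      Gn (lst ((QuotientGroup.mk' M).comp ρ) h (d + 2)) = ⊤
  · exact Lvl2_live hIts2 hg A M hA hMA hab hmin hS ρ hρ hlive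
  push Not at hlive
  obtain ⟨hdead, hne⟩ := hlive
  obtain ⟨hInv, hStr⟩ := hρ
  set σ := (QuotientGroup.mk' M).comp ρ with hσ
  -- an element of the chief factor
  obtain ⟨v, hv, hv1⟩ : ∃ v ∈ A.map (QuotientGroup.mk' M), v ≠ 1 := by
    by_contra hcon
    push Not at hcon
    apply hne
    have h1 : A.map (QuotientGroup.mk' M) = ⊥ := by
      rw [Subgroup.eq_bot_iff_forall]
      exact hcon
    have h2 := Lvl2_map_top (M := M) hStr
    rw [h1, sup_bot_eq] at h2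
    rw [hσ, Lvl2_lst, Lvl2_Gn]
    exact h2
  have hI : Inv h ⊥ σ := by
    intro i hi
    have h1 := hdead (vls σ (0 + (i : ℕ))) (by
      unfold lst
      exact List.mem_map.2 ⟨i, List.mem_range.2 hi, rfl⟩)
    unfold vls at h1
    have hig : 0 + (i : ℕ) < g := by omega
    rw [dif_pos hig] at h1
    have h5 : (⟨0 + (i : ℕ), hig⟩ : Fin g) = i := Fin.ext (by simp)
    rw [h5, Prod.mk.injEq] at h1
    exact ⟨Subgroup.mem_bot.2 h1.1, Subgroup.mem_bot.2 h1.2⟩
  obtain ⟨y, hy, hyv⟩ := Lvl2_top σ ((QuotientGroup.mk'_surjective M).comp hsurj) hI v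
  have h0g : 0 < g := by omega
  obtain ⟨φ, hφ, a1, ⟨m, b1⟩, c1, d1⟩ := st_KPush σ ⊥
      (by
        intro x hx z
        rw [Subgroup.mem_bot.mp hx, one_mul, mul_one]) hI ⟨0, h0g⟩ h0 y hy
  have f1 := hI ⟨0, h0g⟩ h0
  rw [Subgroup.mem_bot, Subgroup.mem_bot] at f1
  rw [f1.1] at a1 b1
  rw [f1.2, hyv, mul_one, one_zpow, mul_one] at b1
  simp only [f1.1, one_zpow, mul_one, exists_const] at d1
  have hval : ∀ l : Fin g, (l : ℕ) < h → σ (φ (ga l)) ∈ A.map (QuotientGroup.mk' M) ∧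
      σ (φ (gb l)) ∈ A.map (QuotientGroup.mk' M) := by
    intro l hl
    by_cases hl0 : l = ⟨0, h0g⟩
    · rw [hl0, a1, b1]
      exact ⟨Subgroup.one_mem _, hv⟩
    · have h1 := c1 l hl hl0
      have h2 := hI l hl
      rw [h1.1, h1.2, Subgroup.mem_bot.1 h2.1, Subgroup.mem_bot.1 h2.2]
      exact ⟨Subgroup.one_mem _, Subgroup.one_mem _⟩
  have hlst : lst ((QuotientGroup.mk' M).comp (ρ.comp (MulEquiv.toMonoidHom φ))) h (d + 2) =
      lst σ h (d + 2) := by
    unfold lst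
    apply List.map_congr_left
    intro i hi
    rw [List.mem_range] at hi
    have hig : h + i < g := by omega
    unfold vls
    rw [dif_pos hig, dif_pos hig]
    exact Prod.ext (d1 _ (Subgroup.subset_closure (Or.inl ⟨⟨h + i, hig⟩, Nat.le_add_right _ _,
      Or.inl rfl⟩))) (d1 _ (Subgroup.subset_closure (Or.inl ⟨⟨h + i, hig⟩,
      Nat.le_add_right _ _, Or.inr rfl⟩)))
  obtain ⟨ψ, hψ, hres⟩ := Lvl2_live hIts2 hg A M hA hMA hab hmin hS
    (ρ.comp (MulEquiv.toMonoidHom φ)) ⟨fun l hl => ⟨Lvl2_mem hMA (hval l hl).1,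
      Lvl2_mem hMA (hval l hl).2⟩, by
      rw [hσ, Lvl2_lst, Lvl2_lst] at hlst
      have h0' := congrArg Gn hlst
      rw [Lvl2_Gn, Lvl2_Gn] at h0'
      have h1 := congrArg (Subgroup.comap (QuotientGroup.mk' M)) h0'
      rw [Lvl2_sup, Lvl2_sup] at h1
      rw [← sup_eq_right.2 hMA, ← sup_assoc, h1, sup_assoc, sup_eq_right.2 hMA]
      exact hStr⟩ (Or.inl ⟨vls ((QuotientGroup.mk' M).comp
        (ρ.comp (MulEquiv.toMonoidHom φ))) 0, by
      unfold lst
      exact List.mem_map.2 ⟨0, List.mem_range.2 h0, rfl⟩, by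
      unfold vls
      rw [dif_pos h0g]
      intro hcon
      apply hv1
      rw [← b1]
      exact congrArg Prod.snd hcon⟩)
  exact ⟨φ * ψ, (MCG g n).mul_mem hφ hψ, hres⟩

end Pool.Agent.PWH
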