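import Pool.Agent.PWH.Base

/-!
# Campaign PWH: a commutative minimal normal subgroup as an irreducible module
-/

set_option autoImplicit false

namespace Pool.Agent.PWH

open Pool.Agent.PW Pool.Agent.PWM Pool.Agent.PWB Pool.Agent.PWX Pool.Agent.PWF

theorem thm_Mod : St_Mod := by
  intro Q _ _ V₀ hV
  have := hV.nor
  let _ : CommGroup V₀ := { (inferInstance : Group V₀) with
    mul_comm := fun a b => Subtype.ext (hV.com a a.2 b b.2) }
  let act : DistribMulAction Q (Additive V₀) :=
    { smul := fun q v => Additive.ofMul (⟨q * (Additive.toMul v : V₀) * q⁻¹,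
        hV.nor.conj_mem _ (Additive.toMul v).2 q⟩ : V₀)
      one_smul := fun v => by
        apply Additive.toMul.injective
        apply Subtype.ext
        show (1 : Q) * ((Additive.toMul v : V₀) : Q) * (1 : Q)⁻¹ = _
        simp
      mul_smul := fun p q v => by
        apply Additive.toMul.injective
        apply Subtype.ext
        show (p * q) * ((Additive.toMul v : V₀) : Q) * (p * q)⁻¹
          = p * (q * ((Additive.toMul v : V₀) : Q) * q⁻¹) * p⁻¹
        group
      smul_zero := fun q => by
        apply Additive.toMul.injective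
        apply Subtype.ext
        show q * (1 : Q) * q⁻¹ = 1
        simp
      smul_add := fun q v w => by
        apply Additive.toMul.injective
        apply Subtype.ext
        show q * (((Additive.toMul v : V₀) : Q) * ((Additive.toMul w : V₀) : Q)) * q⁻¹
          = (q * ((Additive.toMul v : V₀) : Q) * q⁻¹) * (q * ((Additive.toMul w : V₀) : Q) * q⁻¹)
        group }
  have hact : ∀ (q : Q) (v : Additive V₀), ((Additive.toMul (q • v) : V₀) : Q)
      = q * ((Additive.toMul v : V₀) : Q) * q⁻¹ := fun q v => rfl
  refine ⟨Additive V₀, inferInstance, inferInstance, act,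
    { ι := fun v => ((Additive.toMul v : V₀) : Q)
      add := fun v w => rfl
      inj := fun v w h => Additive.toMul.injective (Subtype.ext h)
      cj := fun q v => (hact q v).symm
      tr := fun v w => by
        apply Additive.toMul.injective
        apply Subtype.ext
        rw [hact]
        rw [hV.com _ (Additive.toMul v).2 _ (Additive.toMul w).2]
        group }, ?_, ?_⟩
  · ext q
    constructor
    · rintro ⟨v, rfl⟩
      exact (Additive.toMul v).2
    · intro hq
      exact ⟨Additive.ofMul ⟨q, hq⟩, rfl⟩
  · intro W hW
    have key : ∀ (q : Q), (∃ h : q ∈ V₀, Additive.ofMul (⟨q, h⟩ : V₀) ∈ W) ↔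
        q ∈ (W.toSubgroup'.map V₀.subtype : Subgroup Q) := by
      intro q
      constructor
      · rintro ⟨h, hq⟩
        exact ⟨⟨q, h⟩, hq, rfl⟩
      · rintro ⟨v, hv, rfl⟩
        exact ⟨v.2, hv⟩
    have hN : (W.toSubgroup'.map V₀.subtype : Subgroup Q).Normal := by
      constructor
      intro n hn g
      obtain ⟨h1, h2⟩ := (key _).2 hn
      exact (key _).1 ⟨hV.nor.conj_mem _ h1 g, hW g _ h2⟩
    have hle : (W.toSubgroup'.map V₀.subtype : Subgroup Q) ≤ V₀ := by
      intro q hq
      obtain ⟨h1, _⟩ := (key _).2 hq
      exact h1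
    rcases hV.min (W.toSubgroup'.map V₀.subtype) hN hle with h | h
    · left
      rw [eq_bot_iff]
      intro w hw
      have h1 : ((Additive.toMul w : V₀) : Q) ∈ (W.toSubgroup'.map V₀.subtype : Subgroup Q) :=
        (key _).1 ⟨(Additive.toMul w).2, hw⟩
      rw [h] at h1
      have h2 := Subgroup.mem_bot.1 h1
      rw [AddSubgroup.mem_bot]
      apply Additive.toMul.injective
      exact Subtype.ext h2
    · right
      rw [eq_top_iff]
      intro w _
      have h1 : ((Additive.toMul w : V₀) : Q) ∈ (W.toSubgroup'.map V₀.subtype : Subgroup Q) := by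
        rw [h]
        exact (Additive.toMul w).2
      obtain ⟨_, h2⟩ := (key _).2 h1
      exact h2

end Pool.Agent.PWH
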