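import Pool.Agent.PWH.Base

/-!
# Campaign PWH: the good closed path (module Pth)
-/

set_option autoImplicit false

namespace Pool.Agent.PWH

open Pool.Agent.PW Pool.Agent.PWM Pool.Agent.PWB Pool.Agent.PWX Pool.Agent.PWF

section

variable {Q V : Type} [Group Q] [AddCommGroup V] [DistribMulAction Q V]

/-- The set of triples of the closed paths. -/
def PthL (E : Em Q V) {k : ℕ} (R : Fin k → Q × Q) (x : V) :
    Set (V × (Fin k → V × V) × ((Fin k → V × V) →+ V)) :=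
  {a | ∃ t : Dt Q V k, Lp E R t ∧ E.ι a.1 = t.u * E.ι (t.τ x) ∧ a.2.1 = t.κ x ∧ a.2.2 = t.B}

theorem Pth_mk (E : Em Q V) {k : ℕ} (R : Fin k → Q × Q) (x : V) (t : Dt Q V k)
    (ht : Lp E R t) : ∃ f : V, (f, t.κ x, t.B) ∈ PthL E R x := by
  obtain ⟨w, hw⟩ := ht.2
  refine ⟨w + t.τ x, t, ht, ?_, rfl, rfl⟩
  change E.ι (w + t.τ x) = _
  rw [E.add, hw]

theorem Pth_im (E : Em Q V) {k : ℕ} (R : Fin k → Q × Q) (x : V) :
    {z | ∃ a ∈ PthL E R x, a.2.1 = z} = Xi E R x := by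
  ext z
  constructor
  · rintro ⟨a, ⟨t, ht, _, h2, _⟩, rfl⟩
    exact ⟨t, ht, h2.symm⟩
  · rintro ⟨t, ht, rfl⟩
    obtain ⟨f, hf⟩ := Pth_mk E R x t ht
    exact ⟨_, hf, rfl⟩

theorem Pth_comm (E : Em Q V) {p q : Q} (hp : p ∈ E.rg) (hq : q ∈ E.rg) : p * q = q * p := by
  obtain ⟨v, rfl⟩ := hp
  obtain ⟨w, rfl⟩ := hq
  rw [← E.add, ← E.add, add_comm]

/-- The largest stable subgroup in `W`. -/
def PthU (Q : Type) {V : Type} [Group Q] [AddCommGroup V] [DistribMulAction Q V]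
    (W : AddSubgroup V) : AddSubgroup V where
  carrier := {v | ∀ q : Q, q • v ∈ W}
  zero_mem' := fun q => by rw [smul_zero]; exact W.zero_mem
  add_mem' := fun {v w} hv hw q => by rw [smul_add]; exact W.add_mem (hv q) (hw q)
  neg_mem' := fun {v} hv q => by rw [smul_neg]; exact W.neg_mem (hv q)

theorem PthU_bot (hI : Irr Q V) (W : AddSubgroup V) (hW : W ≠ ⊤) : PthU Q W = ⊥ := by
  rcases hI (PthU Q W) (fun q w hw r => by rw [← mul_smul]; exact hw (r * q)) with h | h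
  · exact h
  · exfalso
    apply hW
    rw [eq_top_iff]
    intro v _
    have hv : v ∈ PthU Q W := by rw [h]; exact AddSubgroup.mem_top v
    have := hv 1
    rwa [one_smul] at this

theorem Pth_arith (n d k X : ℕ) (hn : 2 ≤ n) (hk : d + 2 ≤ k)
    (h : n ^ (2 * k) ≤ n ^ d * X) : 4 * n ^ 2 * n ^ d ≤ X := by
  have hpos : 0 < n ^ d := pow_pos (by omega) d
  have h1 : n ^ d * (n ^ 2 * n ^ 2 * n ^ d) ≤ n ^ d * X := by
    calc n ^ d * (n ^ 2 * n ^ 2 * n ^ d) = n ^ (2 * (d + 2)) := by ring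
      _ ≤ n ^ (2 * k) := Nat.pow_le_pow_right (by omega) (by omega)
      _ ≤ n ^ d * X := h
  have h2 : n ^ 2 * n ^ 2 * n ^ d ≤ X := Nat.le_of_mul_le_mul_left h1 hpos
  have h4 : 4 ≤ n ^ 2 := by
    calc 4 = 2 ^ 2 := by norm_num
      _ ≤ n ^ 2 := Nat.pow_le_pow_left hn 2
  calc 4 * n ^ 2 * n ^ d ≤ n ^ 2 * n ^ 2 * n ^ d := by
        exact Nat.mul_le_mul_right _ (Nat.mul_le_mul_right _ h4)
    _ ≤ X := h2

end

theorem thm_Pth (hCmp : St_Cmp) (hCjp : St_Cjp) (hXib : St_Xib) (hDrv : St_Drv)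
    (hBad : St_Bad) (hWey : St_Wey) : St_Pth := by
  intro Q V _ _ _ _ _ E hI k d R hdk hG hS x hx y
  obtain ⟨hC1, _, hC3, _⟩ := hCjp E R
  have hD : (Dr E R).ncard ≤ Nat.card V ^ d := hDrv E R hG hS
  have hX := hXib E hI R hG hS x hx
  have hB := hBad E hI R hG
  have hne : (PthL E R x).Nonempty := by
    have h0 : Lp E R ⟨1, 0, 0, 0⟩ := ⟨(hCmp E R).1, E.rg.one_mem⟩
    obtain ⟨f, hf⟩ := Pth_mk E R x _ h0
    exact ⟨_, hf⟩
  have hcl : ∀ a ∈ PthL E R x, ∀ b ∈ PthL E R x,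
      (a.1 + b.1 + b.2.2 a.2.1, a.2.1 + b.2.1, a.2.2 + b.2.2) ∈ PthL E R x := by
    rintro a ⟨s, hs, ha1, ha2, ha3⟩ b ⟨t, ht, hb1, hb2, hb3⟩
    obtain ⟨l, hl, hlu, hlk, hlB, hlt⟩ := hC3 s t hs ht
    refine ⟨l, hl, ?_, ?_, ?_⟩
    · change E.ι (a.1 + b.1 + b.2.2 a.2.1) = _
      rw [E.add, E.add, ha1, hb1, hlu, hlt, E.add, E.add, hb3, ha2]
      have hc : s.u * E.ι (s.τ x) * t.u = t.u * (s.u * E.ι (s.τ x)) :=
        Pth_comm E (E.rg.mul_mem hs.2 ⟨_, rfl⟩) ht.2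
      calc s.u * E.ι (s.τ x) * (t.u * E.ι (t.τ x)) * E.ι (t.B (s.κ x))
          = (s.u * E.ι (s.τ x) * t.u) * E.ι (t.τ x) * E.ι (t.B (s.κ x)) := by group
        _ = t.u * (s.u * E.ι (s.τ x)) * E.ι (t.τ x) * E.ι (t.B (s.κ x)) := by rw [hc]
        _ = t.u * s.u * (E.ι (s.τ x) * E.ι (t.τ x) * E.ι (t.B (s.κ x))) := by group
    · change a.2.1 + b.2.1 = _
      rw [hlk, ha2, hb2]
    · change a.2.2 + b.2.2 = _
      refine DFunLike.ext _ _ fun c => ?_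
      rw [hlB, ha3, hb3, AddMonoidHom.add_apply]
  have hsub : ∀ W : AddSubgroup V, W ≠ ⊤ →
      {z | (∃ a ∈ PthL E R x, a.2.1 = z) ∧ ∀ b ∈ PthL E R x, b.2.2 z ∈ W}.ncard
        ≤ Nat.card V ^ d := by
    intro W hW
    refine le_trans (Set.ncard_le_ncard ?_ (Set.toFinite _)) hD
    rintro z ⟨_, hz⟩ t ht
    have hU : t.B z ∈ PthU Q W := by
      intro q
      obtain ⟨t', ht', _, hB'⟩ := hC1 hG q⁻¹ t ht
      obtain ⟨f, hf⟩ := Pth_mk E R x t' ht'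
      have := hz _ hf
      change t'.B z ∈ W at this
      rwa [hB', inv_inv] at this
    rw [PthU_bot hI W hW] at hU
    exact (AddSubgroup.mem_bot).1 hU
  have hn2 : 2 ≤ Nat.card V := by
    have : Nontrivial V := ⟨x, 0, hx⟩
    exact Finite.one_lt_card
  have hbig : 4 * Nat.card V ^ 2 * (Nat.card V ^ d) ≤
      {z | ∃ a ∈ PthL E R x, a.2.1 = z}.ncard := by
    rw [Pth_im]
    exact Pth_arith _ d k _ hn2 hdk hX
  obtain ⟨a, ⟨t, ht, ha1, ha2, _⟩, hay, hab⟩ := hWey (PthL E R x) (Nat.card V ^ d)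
    {c | Gn (mv E R c) ≠ ⊤} y hne hcl hsub (le_trans hB hD) hbig
  refine ⟨t, ht.1, ?_, ?_⟩
  · rw [← ha1, hay]
  · by_contra hcon
    exact hab (by rw [ha2]; exact hcon)

end Pool.Agent.PWH
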