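import Pool.Agent.PWH.Base

/-!
# Campaign PWH: reversal of paths
-/

set_option autoImplicit false

namespace Pool.Agent.PWH

open Pool.Agent.PW Pool.Agent.PWM Pool.Agent.PWB Pool.Agent.PWX Pool.Agent.PWF

theorem Rev_mv {Q V : Type} [Group Q] [AddCommGroup V] [DistribMulAction Q V]
    (E : Em Q V) (u : Q) (v : V) : u * E.ι v * u⁻¹ = E.ι (u • v) := E.cj u v

/-- (Rev) -/
theorem thm_Rev : St_Rev := by
  intro Q V _ _ _ _ E k R t ht
  refine ⟨?_, ?_⟩
  · intro x b' c'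
    set w : V := t.u⁻¹ • b' • x with hw
    set a : V := (rev t).B c' + (rev t).τ (b' • x) with ha
    have hB : (rev t).B c' = -(t.u • t.B c') := rfl
    have hτ : (rev t).τ (b' • x) = t.u • (t.B (t.κ w) - t.τ w) := rfl
    have hκ : (rev t).κ (b' • x) = -(t.κ w) := rfl
    have hu : (rev t).u = t.u⁻¹ := rfl
    have hbx : (t.u⁻¹ * E.ι a * b') • x = w := by
      rw [mul_smul, mul_smul, E.tr]
    have h1 := ht.psh x (t.u⁻¹ * E.ι a * b') (c' + -(t.κ w))
    rw [hbx, neg_add_cancel_right] at h1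
    have h2 : t.u * E.ι (t.B (c' + -(t.κ w)) + t.τ w) * (t.u⁻¹ * E.ι a * b') = b' := by
      have h3 : t.u * E.ι (t.B (c' + -(t.κ w)) + t.τ w) * (t.u⁻¹ * E.ι a * b') =
          (t.u * E.ι (t.B (c' + -(t.κ w)) + t.τ w) * t.u⁻¹) * E.ι a * b' := by group
      have h4 : t.u • (t.B (c' + -(t.κ w)) + t.τ w) + a = 0 := by
        rw [ha, hB, hτ, map_add, map_neg, smul_add, smul_add, smul_neg, smul_sub]
        abel
      rw [h3, E.cj, ← E.add, h4, E.zero, one_mul]
    rw [h2] at h1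
    rw [hκ, hu]
    intro y hy
    exact bBas.2.2.1 _ _ (h1 y hy)
  · intro c
    have h1 := ht.gen c
    have h2 : (rev t).u * E.ι ((rev t).B c) = (t.u * E.ι (t.B c))⁻¹ := by
      have hB : (rev t).B c = -(t.u • t.B c) := rfl
      have hu : (rev t).u = t.u⁻¹ := rfl
      rw [hB, hu, E.neg, ← E.cj]
      group
    rw [h2]
    exact Subgroup.inv_mem _ h1

end Pool.Agent.PWH
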