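import Pool.Agent.PWH.Base

/-!
# Campaign PWH, module Sol: a solvable layer costs `d + 2` handles
-/

set_option autoImplicit false

namespace Pool.Agent.PWH

open Pool.Agent.PW Pool.Agent.PWM Pool.Agent.PWB Pool.Agent.PWX Pool.Agent.PWF

theorem thm_Sol (hCre2 : St_Cre2) (hCha2 : St_Cha2) : St_Sol := by
  intro Q _ _ g n h d hg ρ N M _ _ hsurj hMN hsolv hS hInv
  rcases Nat.eq_zero_or_pos h with rfl | hpos
  · refine ⟨1, one_mem _, ?_⟩
    intro i hi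
    exact absurd hi (Nat.not_lt_zero _)
  · obtain ⟨S, hS1, hS2⟩ := hS
    have hSN : Subgroup.closure (S : Set Q) ⊔ N = ⊤ :=
      top_le_iff.1 (hS2 ▸ sup_le_sup_left hMN _)
    obtain ⟨φ, hφ, hst⟩ := hCre2 hg ρ N hsurj inferInstance ⟨S, hS1, hSN⟩ hInv
    have surj2 : Function.Surjective (ρ.comp (MulEquiv.toMonoidHom φ)) := by
      intro q
      obtain ⟨x, hx⟩ := hsurj q
      refine ⟨φ.symm x, ?_⟩
      simp [hx]
    obtain ⟨ψ, hψ, h2⟩ := hCha2 hpos hg N M hMN hsolv ⟨S, hS1, hS2⟩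
      (ρ.comp (MulEquiv.toMonoidHom φ)) surj2 hst
    exact ⟨φ * ψ, mul_mem hφ hψ, h2.1⟩

end Pool.Agent.PWH
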