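import Pool.Agent.PWH.Base
import Mathlib.Analysis.Fourier.FiniteAbelian.PontryaginDuality

/-!
# Weyl differencing in a finite group of Heisenberg type
-/

set_option autoImplicit false

namespace Pool.Agent.PWH

section

variable {V Z : Type} [AddCommGroup V] [AddCommGroup Z]

private def Wey_m (a b : V × Z × (Z →+ V)) : V × Z × (Z →+ V) :=
  (a.1 + b.1 + b.2.2 a.2.1, a.2.1 + b.2.1, a.2.2 + b.2.2)

private theorem Wey_right (a : V × Z × (Z →+ V)) : Function.Injective (Wey_m a) := by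
  rintro ⟨b1, b2, b3⟩ ⟨c1, c2, c3⟩ h
  have h1 : a.1 + b1 + b3 a.2.1 = a.1 + c1 + c3 a.2.1 := congrArg (fun x => x.1) h
  have h2 : a.2.1 + b2 = a.2.1 + c2 := congrArg (fun x => x.2.1) h
  have h3 : a.2.2 + b3 = a.2.2 + c3 := congrArg (fun x => x.2.2) h
  have h2' := add_left_cancel h2
  have h3' := add_left_cancel h3
  subst h2' h3'
  have h1' := add_left_cancel (add_right_cancel h1)
  subst h1'
  rfl

private theorem Wey_left (b : V × Z × (Z →+ V)) : Function.Injective (fun a => Wey_m a b) := by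
  rintro ⟨a1, a2, a3⟩ ⟨c1, c2, c3⟩ h
  have h1 : a1 + b.1 + b.2.2 a2 = c1 + b.1 + b.2.2 c2 := congrArg (fun x => x.1) h
  have h2 : a2 + b.2.1 = c2 + b.2.1 := congrArg (fun x => x.2.1) h
  have h3 : a3 + b.2.2 = c3 + b.2.2 := congrArg (fun x => x.2.2) h
  have h2' := add_right_cancel h2
  have h3' := add_right_cancel h3
  subst h2' h3'
  have h1' := add_right_cancel (add_right_cancel h1)
  subst h1'
  rfl

private theorem Wey_sum {T R : Type*} [AddCommMonoid R] (s : Finset T) (i : T → T)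
    (hi : Function.Injective i) (hs : ∀ a ∈ s, i a ∈ s) (f : T → R) :
    ∑ a ∈ s, f (i a) = ∑ a ∈ s, f a := by
  classical
  have h : s.image i = s := Finset.eq_of_subset_of_card_le (Finset.image_subset_iff.2 hs)
    (by rw [Finset.card_image_of_injective _ hi])
  conv_rhs => rw [← h]
  rw [Finset.sum_image hi.injOn]

open Classical in
private theorem Wey_fib (s : Finset (V × Z × (Z →+ V))) (hs : s.Nonempty)
    (hm : ∀ a ∈ s, ∀ b ∈ s, Wey_m a b ∈ s) :
    ∃ N : ℕ, ∀ P : Set Z, (s.filter (fun a => a.2.1 ∈ P)).card =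
      N * ((s.image (fun a => a.2.1)).filter (fun z => z ∈ P)).card := by
  set X : Finset Z := s.image (fun a => a.2.1) with hX
  let N : Z → ℕ := fun z => (s.filter (fun a => a.2.1 = z)).card
  have h1 : ∀ b ∈ s, ∀ z, N z ≤ N (z + b.2.1) := by
    intro b hb z
    refine Finset.card_le_card_of_injOn (fun a => Wey_m a b) ?_ (Wey_left b).injOn
    intro a ha
    have ha' := Finset.mem_filter.1 (Finset.mem_coe.1 ha)
    refine Finset.mem_coe.2 (Finset.mem_filter.2 ⟨hm a ha'.1 b hb, ?_⟩)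
    change a.2.1 + b.2.1 = _
    rw [ha'.2]
  have hadd : ∀ z ∈ X, ∀ w ∈ X, z + w ∈ X := by
    intro z hz w hw
    obtain ⟨a, ha, rfl⟩ := Finset.mem_image.1 hz
    obtain ⟨b, hb, rfl⟩ := Finset.mem_image.1 hw
    exact Finset.mem_image.2 ⟨Wey_m a b, hm a ha b hb, rfl⟩
  have h2 : ∀ w ∈ X, ∀ z ∈ X, N z = N (z + w) := by
    intro w hw
    obtain ⟨b, hb, rfl⟩ := Finset.mem_image.1 hw
    have h3 := Wey_sum X (fun z => z + b.2.1) (add_left_injective _)
      (fun z hz => hadd z hz _ hw) N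
    exact (Finset.sum_eq_sum_iff_of_le (fun z _ => h1 b hb z)).1 h3.symm
  obtain ⟨a0, ha0⟩ := hs
  have h0 : a0.2.1 ∈ X := Finset.mem_image.2 ⟨a0, ha0, rfl⟩
  have h3 : ∀ z ∈ X, N z = N a0.2.1 := by
    intro z hz
    rw [h2 _ h0 z hz, add_comm, ← h2 z hz _ h0]
  refine ⟨N a0.2.1, fun P => ?_⟩
  rw [Finset.card_eq_sum_card_fiberwise (f := fun a => a.2.1) (t := X.filter (fun z => z ∈ P))
    (fun a ha => by
      have ha' := Finset.mem_filter.1 (Finset.mem_coe.1 ha)
      exact Finset.mem_coe.2 (Finset.mem_filter.2 ⟨Finset.mem_image.2 ⟨a, ha'.1, rfl⟩, ha'.2⟩))]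
  rw [Finset.sum_congr rfl (g := fun _ => N a0.2.1)]
  · rw [Finset.sum_const, smul_eq_mul, mul_comm]
  · intro z hz
    have hz' := Finset.mem_filter.1 hz
    rw [← h3 z hz'.1, Finset.filter_filter]
    congr 1
    refine Finset.filter_congr fun a _ => ⟨fun h => h.2, fun h => ⟨?_, h⟩⟩
    rw [h]
    exact hz'.2

private theorem Wey_ite (s : Finset (V × Z × (Z →+ V)))
    (hm : ∀ a ∈ s, ∀ b ∈ s, Wey_m a b ∈ s) (e : V × Z × (Z →+ V) → ℂ)
    (he : ∀ a ∈ s, ∀ b ∈ s, e (Wey_m a b) = e a * e b) (P : Prop) [Decidable P]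
    (hP : P ↔ ∀ a ∈ s, e a = 1) :
    ∑ a ∈ s, e a = if P then (s.card : ℂ) else 0 := by
  split_ifs with h
  · rw [Finset.sum_congr rfl (hP.1 h)]
    simp
  · rw [hP] at h
    push Not at h
    obtain ⟨a, ha, hne⟩ := h
    have h1 := Wey_sum s (Wey_m a) (Wey_right a) (fun b hb => hm a ha b hb) e
    rw [Finset.sum_congr rfl (fun b hb => he a ha b hb), ← Finset.mul_sum] at h1
    have h2 : (e a - 1) * ∑ b ∈ s, e b = 0 := by rw [sub_mul, h1, one_mul, sub_self]
    exact (mul_eq_zero.1 h2).resolve_left (sub_ne_zero.2 hne)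

open Classical in
/-- The estimate of a character sum. -/
private theorem Wey_norm [Finite V] (s : Finset (V × Z × (Z →+ V)))
    (hm : ∀ a ∈ s, ∀ b ∈ s, Wey_m a b ∈ s) (χ : AddChar V ℂ) (P : Set Z)
    (hP : ∀ z, z ∈ P ↔ ∀ b ∈ s, χ (b.2.2 z) = 1) :
    ‖∑ a ∈ s, χ a.1‖ ^ 2 ≤ s.card * ((s.filter (fun a => a.2.1 ∈ P)).card : ℝ) := by
  set S := ∑ a ∈ s, χ a.1 with hS
  have e1 : starRingEnd ℂ S * S = ∑ b ∈ s, χ b.1 * ∑ a ∈ s, χ (b.2.2 a.2.1) := by
    have h1 : starRingEnd ℂ S * S = ∑ a ∈ s, ∑ b ∈ s, χ b.1 * χ (b.2.2 a.2.1) := by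
      rw [hS, map_sum, Finset.sum_mul]
      refine Finset.sum_congr rfl fun a ha => ?_
      rw [← Wey_sum s (Wey_m a) (Wey_right a) (fun b hb => hm a ha b hb) (fun b => χ b.1),
        Finset.mul_sum]
      refine Finset.sum_congr rfl fun b hb => ?_
      change _ * χ (a.1 + b.1 + b.2.2 a.2.1) = _
      rw [AddChar.map_add_eq_mul, AddChar.map_add_eq_mul, ← AddChar.map_neg_eq_conj, mul_assoc,
        ← mul_assoc, ← AddChar.map_add_eq_mul, neg_add_cancel, AddChar.map_zero_eq_one, one_mul]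
    rw [h1, Finset.sum_comm]
    exact Finset.sum_congr rfl fun b _ => by rw [Finset.mul_sum]
  let c : V × Z × (Z →+ V) → ℝ := fun b => if ∀ a ∈ s, χ (b.2.2 a.2.1) = 1 then s.card else 0
  have hI : ∀ b ∈ s, ∑ a ∈ s, χ (b.2.2 a.2.1) = (c b : ℂ) := by
    intro b _
    rw [Wey_ite s hm (fun a => χ (b.2.2 a.2.1)) (fun a _ a' _ => ?_)
      (∀ a ∈ s, χ (b.2.2 a.2.1) = 1) Iff.rfl]
    · simp only [c]
      split_ifs <;> simp
    · change χ (b.2.2 (a.2.1 + a'.2.1)) = _
      rw [map_add, AddChar.map_add_eq_mul]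
  have hsum : ∑ b ∈ s, c b = s.card * ((s.filter (fun a => a.2.1 ∈ P)).card : ℝ) := by
    have h1 : ((∑ b ∈ s, c b : ℝ) : ℂ) = ((s.card *
        ((s.filter (fun a => a.2.1 ∈ P)).card : ℝ) : ℝ) : ℂ) := by
      rw [Complex.ofReal_sum, ← Finset.sum_congr rfl hI, Finset.sum_comm]
      rw [Finset.sum_congr rfl (g := fun a => if a.2.1 ∈ P then (s.card : ℂ) else 0)]
      · rw [← Finset.sum_filter, Finset.sum_const]
        push_cast
        rw [nsmul_eq_mul, mul_comm]
      · intro a _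
        rw [Wey_ite s hm (fun b => χ (b.2.2 a.2.1)) (fun b _ b' _ => ?_)
          (a.2.1 ∈ P) (hP a.2.1)]
        change χ ((b.2.2 + b'.2.2) a.2.1) = _
        rw [AddMonoidHom.add_apply, AddChar.map_add_eq_mul]
    exact_mod_cast h1
  rw [← hsum]
  have h2 : ‖S‖ ^ 2 = ‖starRingEnd ℂ S * S‖ := by
    rw [norm_mul, RCLike.norm_conj, sq]
  rw [h2, e1]
  refine (norm_sum_le _ _).trans (Finset.sum_le_sum fun b hb => ?_)
  rw [norm_mul, AddChar.norm_apply, one_mul, hI b hb, Complex.norm_real, Real.norm_of_nonneg]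
  simp only [c]
  split_ifs
  · exact Nat.cast_nonneg _
  · exact le_refl _

end

theorem thm_Wey : St_Wey := by
  intro V Z _ _ _ _ L D bad y hL hm hW hbad hX
  classical
  have : Finite (Z →+ V) :=
    Finite.of_injective (fun f : Z →+ V => (f : Z → V)) DFunLike.coe_injective
  have := Fintype.ofFinite V
  let s : Finset (V × Z × (Z →+ V)) := L.toFinite.toFinset
  have hs : ∀ a, a ∈ s ↔ a ∈ L := fun a => Set.Finite.mem_toFinset _
  have hms : ∀ a ∈ s, ∀ b ∈ s, Wey_m a b ∈ s := fun a ha b hb =>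
    (hs _).2 (hm a ((hs a).1 ha) b ((hs b).1 hb))
  obtain ⟨a0, ha0⟩ := hL
  have hne : s.Nonempty := ⟨a0, (hs a0).2 ha0⟩
  obtain ⟨N, hN⟩ := Wey_fib s hne hms
  set X : Finset Z := s.image (fun a => a.2.1) with hXdef
  have hXm : ∀ z, z ∈ X ↔ ∃ a ∈ L, a.2.1 = z := by
    intro z
    rw [hXdef, Finset.mem_image]
    simp only [hs]
  have hXc : {z | ∃ a ∈ L, a.2.1 = z}.ncard = X.card := by
    rw [← Set.ncard_coe_finset]
    congr 1
    ext z
    rw [Finset.mem_coe, hXm]
    rfl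
  rw [hXc] at hX
  have hsN : s.card = N * X.card := by
    have := hN Set.univ
    simpa using this
  -- few elements over a small set
  have hP : ∀ P : Set Z, (X.filter (fun z => z ∈ P)).card ≤ D →
      4 * Nat.card V ^ 2 * (s.filter (fun a => a.2.1 ∈ P)).card ≤ s.card := by
    intro P hP
    rw [hN P, hsN]
    calc 4 * Nat.card V ^ 2 * (N * (X.filter (fun z => z ∈ P)).card)
        = N * (4 * Nat.card V ^ 2 * (X.filter (fun z => z ∈ P)).card) := by ring
      _ ≤ N * (4 * Nat.card V ^ 2 * D) := by gcongr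
      _ ≤ N * X.card := by gcongr
  have hn : (Nat.card V : ℝ) = (Fintype.card V : ℝ) := by rw [Nat.card_eq_fintype_card]
  have hn1 : (1 : ℝ) ≤ (Nat.card V : ℝ) := by
    have : 0 < Nat.card V := Nat.card_pos
    exact_mod_cast this
  set n : ℝ := (Nat.card V : ℝ) with hndef
  have hspos : (0 : ℝ) < s.card := by exact_mod_cast hne.card_pos
  -- the character sums
  have hS : ∀ χ : AddChar V ℂ, χ ≠ 0 → 2 * n * ‖∑ a ∈ s, χ a.1‖ ≤ s.card := by
    intro χ hχ
    let W : AddSubgroup V :=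
      { carrier := {v | χ v = 1}
        zero_mem' := AddChar.map_zero_eq_one χ
        add_mem' := fun {v w} hv hw => by
          change χ (v + w) = 1
          rw [AddChar.map_add_eq_mul, show χ v = 1 from hv, show χ w = 1 from hw, one_mul]
        neg_mem' := fun {v} hv => by
          change χ (-v) = 1
          rw [AddChar.map_neg_eq_conj, show χ v = 1 from hv, map_one] }
    have hWt : W ≠ ⊤ := by
      intro h
      apply hχ
      refine DFunLike.ext _ _ fun v => ?_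
      have : v ∈ W := h ▸ AddSubgroup.mem_top v
      exact this
    obtain ⟨P, hPd⟩ : ∃ P : Set Z, ∀ z, z ∈ P ↔ ∀ b ∈ s, χ (b.2.2 z) = 1 :=
      ⟨{z : Z | ∀ b ∈ s, χ (b.2.2 z) = 1}, fun _ => Iff.rfl⟩
    have h1 := Wey_norm s hms χ P hPd
    have h2 := hP P (by
      refine le_trans (le_of_eq ?_) (hW W hWt)
      rw [← Set.ncard_coe_finset]
      congr 1
      ext z
      rw [Finset.mem_coe, Finset.mem_filter, hXm, hPd]
      refine and_congr Iff.rfl ⟨fun h b hb => h b ((hs b).2 hb), fun h b hb => h b ((hs b).1 hb)⟩)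
    have h3 : 4 * n ^ 2 * ((s.filter (fun a => a.2.1 ∈ P)).card : ℝ) ≤ s.card := by
      rw [hndef]
      exact_mod_cast h2
    have h4 : (2 * n * ‖∑ a ∈ s, χ a.1‖) ^ 2 ≤ (s.card : ℝ) ^ 2 := by
      calc (2 * n * ‖∑ a ∈ s, χ a.1‖) ^ 2 = 4 * n ^ 2 * ‖∑ a ∈ s, χ a.1‖ ^ 2 := by ring
        _ ≤ 4 * n ^ 2 * (s.card * ((s.filter (fun a => a.2.1 ∈ P)).card : ℝ)) := by gcongr
        _ = s.card * (4 * n ^ 2 * ((s.filter (fun a => a.2.1 ∈ P)).card : ℝ)) := by ring
        _ ≤ s.card * s.card := by gcongr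
        _ = (s.card : ℝ) ^ 2 := by ring
    exact (pow_le_pow_iff_left₀ (by positivity) hspos.le two_ne_zero).1 h4
  -- the number of the elements over `y`
  have hcnt : (n + 1) * s.card ≤ 2 * n ^ 2 * ((s.filter (fun a => a.1 = y)).card : ℝ) := by
    have e1 : ((n * ((s.filter (fun a => a.1 = y)).card : ℝ) : ℝ) : ℂ) =
        ∑ χ : AddChar V ℂ, χ (-y) * ∑ a ∈ s, χ a.1 := by
      have e2 : ∑ χ : AddChar V ℂ, χ (-y) * ∑ a ∈ s, χ a.1 =
          ∑ a ∈ s, ∑ χ : AddChar V ℂ, χ (a.1 - y) := by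
        rw [Finset.sum_comm]
        refine Finset.sum_congr rfl fun χ _ => ?_
        rw [Finset.mul_sum]
        refine Finset.sum_congr rfl fun a _ => ?_
        rw [← AddChar.map_add_eq_mul, neg_add_eq_sub]
      rw [e2, Finset.sum_congr rfl (fun a _ => AddChar.sum_apply_eq_ite (a.1 - y))]
      simp only [sub_eq_zero]
      rw [← Finset.sum_filter, Finset.sum_const, nsmul_eq_mul, mul_comm, hn]
      push_cast
      ring
    rw [← Finset.add_sum_erase _ _ (Finset.mem_univ (0 : AddChar V ℂ))] at e1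
    have e3 : (0 : AddChar V ℂ) (-y) * ∑ a ∈ s, (0 : AddChar V ℂ) a.1 = (s.card : ℂ) := by
      simp
    rw [e3] at e1
    have e4 : ‖(((n * ((s.filter (fun a => a.1 = y)).card : ℝ) - s.card : ℝ)) : ℂ)‖ ≤
        (n - 1) * (s.card / (2 * n)) := by
      rw [Complex.ofReal_sub, e1, Complex.ofReal_natCast, add_sub_cancel_left]
      refine (norm_sum_le _ _).trans ?_
      refine (Finset.sum_le_card_nsmul _ _ (s.card / (2 * n)) fun χ hχ => ?_).trans (le_of_eq ?_)
      · rw [norm_mul, AddChar.norm_apply, one_mul, le_div_iff₀ (by positivity), mul_comm]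
        exact hS χ (Finset.ne_of_mem_erase hχ)
      · rw [Finset.card_erase_of_mem (Finset.mem_univ _), Finset.card_univ, AddChar.card_eq,
          nsmul_eq_mul, Nat.cast_sub Fintype.card_pos, Nat.cast_one, ← hn]
    rw [Complex.norm_real, Real.norm_eq_abs] at e4
    have e5 := (abs_le.1 e4).1
    have e6 : (n - 1) * (s.card / (2 * n)) * (2 * n) = (n - 1) * s.card := by
      field_simp
    have e7 := mul_le_mul_of_nonneg_right e5 (by positivity : 0 ≤ 2 * n)
    rw [neg_mul, e6] at e7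
    nlinarith
  have hb := hP bad (by
    refine le_trans ?_ hbad
    rw [← Set.ncard_coe_finset]
    refine Set.ncard_le_ncard (fun z hz => ?_) (Set.toFinite _)
    exact (Finset.mem_filter.1 (Finset.mem_coe.1 hz)).2)
  have hb' : 4 * n ^ 2 * ((s.filter (fun a => a.2.1 ∈ bad)).card : ℝ) ≤ s.card := by
    rw [hndef]
    exact_mod_cast hb
  by_contra hcon
  push Not at hcon
  have hle : (s.filter (fun a => a.1 = y)).card ≤ (s.filter (fun a => a.2.1 ∈ bad)).card := by
    refine Finset.card_le_card fun a ha => ?_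
    have ha' := Finset.mem_filter.1 ha
    exact Finset.mem_filter.2 ⟨ha'.1, hcon a ((hs a).1 ha'.1) ha'.2⟩
  have hle' : ((s.filter (fun a => a.1 = y)).card : ℝ) ≤ (s.filter (fun a => a.2.1 ∈ bad)).card := by
    exact_mod_cast hle
  have h5 : 2 * n ^ 2 * ((s.filter (fun a => a.1 = y)).card : ℝ) ≤
      2 * n ^ 2 * ((s.filter (fun a => a.2.1 ∈ bad)).card : ℝ) :=
    mul_le_mul_of_nonneg_left hle' (by positivity)
  nlinarith

end Pool.Agent.PWH
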