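import Pool.Agent.PWH.Base

/-!
# Campaign PWH: the changes by closed paths are many
-/

set_option autoImplicit false

namespace Pool.Agent.PWH

open Pool.Agent.PW Pool.Agent.PWM Pool.Agent.PWB Pool.Agent.PWX Pool.Agent.PWF

theorem Xib_nor {Q V : Type} [Group Q] [AddCommGroup V] [DistribMulAction Q V] (E : Em Q V) :
    E.rg.Normal :=
  ⟨by
    rintro _ ⟨v, rfl⟩ q
    exact ⟨q • v, (E.cj q v).symm⟩⟩

theorem thm_Xib (hCmp : St_Cmp) (hRev : St_Rev) (hElm : St_Elm) (hCjp : St_Cjp) : St_Xib := by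
  classical
  intro Q V _ _ _ _ _ E hirr k d R hR hS x hx
  obtain ⟨S, hSd, hS⟩ := hS
  obtain ⟨hid, hcmp⟩ := hCmp E R
  have hrev := hRev E R
  obtain ⟨hElma, -, hElmc⟩ := hElm E R
  obtain ⟨c1, c2, c3, c4⟩ := hCjp E R
  have hnor := Xib_nor E
  -- the group of the changes by closed paths
  let X : AddSubgroup (Fin k → V × V) :=
    { carrier := Xi E R x
      zero_mem' := ⟨⟨1, 0, 0, 0⟩, ⟨hid, E.rg.one_mem⟩, rfl⟩
      add_mem' := by
        rintro _ _ ⟨s, hs, rfl⟩ ⟨t, ht, rfl⟩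
        obtain ⟨l, hl, -, h, -⟩ := c3 s t hs ht
        exact ⟨l, hl, h x⟩
      neg_mem' := by
        rintro _ ⟨s, hs, rfl⟩
        obtain ⟨l, hl, h, -⟩ := c4 s hs
        exact ⟨l, hl, h x⟩ }
  -- the feet
  let U : AddSubgroup V :=
    { carrier := {v | ∀ t, Lp E R t → t.κ v ∈ X}
      zero_mem' := fun t _ => by rw [map_zero]; exact X.zero_mem
      add_mem' := fun {v w} hv hw t ht => by rw [map_add]; exact X.add_mem (hv t ht) (hw t ht)
      neg_mem' := fun {v} hv t ht => by rw [map_neg]; exact X.neg_mem (hv t ht) }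
  have hU : U = ⊤ := by
    refine (hirr U fun q v hv t ht => ?_).resolve_left fun h => ?_
    · obtain ⟨t', ht', h', -⟩ := c1 hR q t ht
      rw [← h' v]
      exact hv t' ht'
    · have h1 : x ∈ U := fun t ht => ⟨t, ht, rfl⟩
      rw [h, AddSubgroup.mem_bot] at h1
      exact hx h1
  have hclosed : ∀ t, Lp E R t → ∀ v, t.κ v ∈ X := by
    intro t ht v
    have h1 : v ∈ U := hU ▸ AddSubgroup.mem_top v
    exact h1 t ht
  have hcong : ∀ s t : Dt Q V k, Vd E R s → Vd E R t →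
      QuotientGroup.mk' E.rg t.u = QuotientGroup.mk' E.rg s.u → ∀ v, s.κ v - t.κ v ∈ X := by
    intro s t hs ht h v
    obtain ⟨l, hl, h', -⟩ := c2 s t hs ht (QuotientGroup.eq.1 h)
    rw [← h' v]
    exact hclosed l hl v
  have hpath : ∀ q : Q, ∃ t : Dt Q V k, Vd E R t ∧
      QuotientGroup.mk' E.rg t.u = QuotientGroup.mk' E.rg q := by
    intro q
    obtain ⟨t, ht, h⟩ := hElmc hR q
    exact ⟨t, ht, (QuotientGroup.eq.2 h).symm⟩
  choose T hT hTu using hpath
  let Ψ : X × (S → V) →+ (Fin k → V × V) :=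
    X.subtype.comp (AddMonoidHom.fst X (S → V)) +
      (∑ s : S, (T s).κ.comp (Pi.evalAddMonoidHom (fun _ : S => V) s)).comp
        (AddMonoidHom.snd X (S → V))
  have hΨ : ∀ p, Ψ p = (p.1 : Fin k → V × V) + ∑ s : S, (T s).κ (p.2 s) := by
    intro p
    change (p.1 : Fin k → V × V) + (∑ s : S, (T s).κ.comp
      (Pi.evalAddMonoidHom (fun _ : S => V) s)) p.2 = _
    rw [AddMonoidHom.finsetSum_apply]
    rfl
  have hXY : ∀ z ∈ X, z ∈ Ψ.range := by
    intro z hz
    refine ⟨(⟨z, hz⟩, 0), ?_⟩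
    rw [hΨ]
    simp
  have hSY : ∀ s ∈ S, ∀ v, (T s).κ v ∈ Ψ.range := by
    intro s hs v
    refine ⟨(0, Pi.single ⟨s, hs⟩ v), ?_⟩
    rw [hΨ, Finset.sum_eq_single (⟨s, hs⟩ : S)]
    · simp
    · intro t _ ht
      have h0 : (Pi.single (⟨s, hs⟩ : S) v : S → V) t = 0 := by
        rw [Pi.single_apply, if_neg ht]
      exact (congrArg (T t).κ h0).trans (map_zero _)
    · intro h
      exact absurd (Finset.mem_univ _) h
  have hY : ∀ s t : Dt Q V k, Vd E R s → Vd E R t →
      QuotientGroup.mk' E.rg t.u = QuotientGroup.mk' E.rg s.u → (∀ v, t.κ v ∈ Ψ.range) →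
      ∀ v, s.κ v ∈ Ψ.range := by
    intro s t hs ht h h' v
    have h1 := Ψ.range.add_mem (hXY _ (hcong s t hs ht h v)) (h' v)
    rwa [sub_add_cancel] at h1
  let G : Subgroup Q :=
    { carrier := {q | ∀ v, (T q).κ v ∈ Ψ.range}
      one_mem' := by
        intro v
        refine hY (T 1) ⟨1, 0, 0, 0⟩ (hT 1) hid (hTu 1).symm (fun v => ?_) v
        exact Ψ.range.zero_mem
      mul_mem' := by
        intro p q hp hq
        refine hY (T (p * q)) (cmp (T q) (T p)) (hT _) (hcmp _ _ (hT q) (hT p)) ?_ ?_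
        · rw [hTu, cmp, map_mul, map_mul, hTu, hTu]
        · intro v
          exact Ψ.range.add_mem (hq v) (hp _)
      inv_mem' := by
        intro q hq
        refine hY (T q⁻¹) (rev (T q)) (hT _) (hrev _ (hT q)) ?_ ?_
        · rw [hTu, rev, map_inv, map_inv, hTu]
        · intro v
          exact Ψ.range.neg_mem (hq _) }
  have hG : G = ⊤ := by
    rw [eq_top_iff, ← hS]
    refine sup_le ((Subgroup.closure_le _).2 fun s hs => hSY s hs) ?_
    intro q hq
    refine hY (T q) ⟨1, 0, 0, 0⟩ (hT q) hid ?_ (fun v => Ψ.range.zero_mem)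
    rw [hTu]
    exact (map_one _).trans ((QuotientGroup.eq_one_iff q).2 hq).symm
  have htop : ∀ z : Fin k → V × V, z ∈ Ψ.range := by
    intro z
    have h1 := hElma z
    refine (AddSubgroup.closure_le _).2 ?_ h1
    rintro _ ⟨t, ht, v, rfl⟩
    have h2 : t.u ∈ G := hG ▸ Subgroup.mem_top _
    exact hY t (T t.u) ht (hT _) (hTu _) h2 v
  have hcard := Nat.card_le_card_of_surjective (f := Ψ) htop
  have e1 : Nat.card (Fin k → V × V) = Nat.card V ^ (2 * k) := by
    rw [Nat.card_fun, Nat.card_prod, Nat.card_fin, pow_mul, sq]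
  have e2 : Nat.card (X × (S → V)) = (Xi E R x).ncard * Nat.card V ^ S.card := by
    rw [Nat.card_prod, Nat.card_fun, Nat.card_eq_fintype_card (α := S), Fintype.card_coe]
    rfl
  rw [e1, e2] at hcard
  rw [mul_comm (Nat.card V ^ d)]
  exact hcard.trans (Nat.mul_le_mul_left _ (Nat.pow_le_pow_right Nat.card_pos hSd))

end Pool.Agent.PWH
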