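import Pool.Agent.PWH.Base
import Pool.Agent.PWH.Cmp
import Pool.Agent.PWH.Rev
import Pool.Agent.PWH.Ele
import Pool.Agent.PWH.Elm
import Pool.Agent.PWH.Cjp
import Pool.Agent.PWH.Xib
import Pool.Agent.PWH.Drv
import Pool.Agent.PWH.Bad
import Pool.Agent.PWH.Wey
import Pool.Agent.PWH.Pth
import Pool.Agent.PWH.Mod
import Pool.Agent.PWH.Abs
import Pool.Agent.PWH.Its2
import Pool.Agent.PWH.Lvl2
import Pool.Agent.PWH.Cha2
import Pool.Agent.PWH.Cre2
import Pool.Agent.PWH.Sol
import Pool.Agent.PWH.Cost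

/-!
Campaign PWH: assembly of the theorem on solvable layers.
-/

set_option autoImplicit false

namespace Pool.Agent.PWH

theorem all_Sol : St_Sol := by
  have hCmp : St_Cmp := thm_Cmp
  have hRev : St_Rev := thm_Rev
  have hEle : St_Ele := thm_Ele
  have hElm : St_Elm := thm_Elm hCmp hRev hEle
  have hCjp : St_Cjp := thm_Cjp hCmp hRev hElm
  have hXib : St_Xib := thm_Xib hCmp hRev hElm hCjp
  have hDrv : St_Drv := thm_Drv hCmp hRev hElm hCjp
  have hBad : St_Bad := thm_Bad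
  have hWey : St_Wey := thm_Wey
  have hPth : St_Pth := thm_Pth hCmp hCjp hXib hDrv hBad hWey
  have hMod : St_Mod := thm_Mod
  have hAbs : St_Abs := thm_Abs hMod hPth
  have hIts : St_Its2 := thm_Its2 hAbs
  have hLvl : St_Lvl2 := thm_Lvl2 hIts
  have hCha : St_Cha2 := thm_Cha2 hLvl
  have hCre : St_Cre2 := thm_Cre2
  have hSol : St_Sol := thm_Sol hCre hCha
  exact @hSol

end Pool.Agent.PWH
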