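import Pool.Agent.PWF.St

/-!
# Campaign PWH: definitions

Aim (`St_Sol`): let `ρ : F g n →* Q` be surjective, `M ≤ N` normal in `Q`, `N/M` solvable, `Q/M` generated by `d`
elements.  If `h + d + 2` handles go to `N`, then after a mapping class `h` handles go to `M`: a solvable
layer costs `d + 2` handles, whatever its length is.  (Dunwoody's theorem on generating tuples of
solvable groups is the model.)

`V` is a commutative group (written additively) with an action of `Q`, embedded in `Q` as a normal
subgroup.  `R : Fin k → Q × Q` are the values of `k` handles; `mv E R c` is the list of the values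
changed by the elements `c : Fin k → V × V`.  A datum `t : Dt Q V k` describes a closed or open path of a foot
of a handle `(ι x, b)` on the left of `R`: it changes `b` to `u * ι (B c + τ (b • x)) * b` and `c` to
`c + κ (b • x)`; the maps `κ, B, τ` are additive and do not depend on `x, b, c`.
-/

set_option autoImplicit false

namespace Pool.Agent.PWH

open Pool.Agent.PW Pool.Agent.PWM Pool.Agent.PWB Pool.Agent.PWX Pool.Agent.PWF

/-- `V` is embedded in `Q` as a commutative normal subgroup; the action of `Q` on `V` is the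
conjugation. -/
structure Em (Q V : Type) [Group Q] [AddCommGroup V] [DistribMulAction Q V] where
  ι : V → Q
  add : ∀ v w, ι (v + w) = ι v * ι w
  inj : Function.Injective ι
  cj : ∀ (q : Q) (v : V), q * ι v * q⁻¹ = ι (q • v)
  tr : ∀ v w : V, ι v • w = w

section

variable {Q V : Type} [Group Q] [AddCommGroup V] [DistribMulAction Q V]

theorem Em.zero (E : Em Q V) : E.ι 0 = 1 := by
  have h := E.add 0 0
  rw [add_zero] at h
  exact (mul_eq_left.1 h.symm)

theorem Em.neg (E : Em Q V) (v : V) : E.ι (-v) = (E.ι v)⁻¹ := by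
  have h := E.add (-v) v
  rw [neg_add_cancel, E.zero] at h
  exact eq_inv_of_mul_eq_one_left h.symm

/-- The image of `V` in `Q`. -/
def Em.rg (E : Em Q V) : Subgroup Q where
  carrier := Set.range E.ι
  one_mem' := ⟨0, E.zero⟩
  mul_mem' := by
    rintro _ _ ⟨v, rfl⟩ ⟨w, rfl⟩
    exact ⟨v + w, E.add v w⟩
  inv_mem' := by
    rintro _ ⟨v, rfl⟩
    exact ⟨-v, E.neg v⟩

/-- The action of an element of `Q` on `V`. -/
def act (V : Type) [AddCommGroup V] [DistribMulAction Q V] (q : Q) : V →+ V :=
  DistribSMul.toAddMonoidHom V q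

/-- `V` is irreducible. -/
def Irr (Q V : Type) [Group Q] [AddCommGroup V] [DistribMulAction Q V] : Prop :=
  ∀ W : AddSubgroup V, (∀ (q : Q), ∀ w ∈ W, q • w ∈ W) → W = ⊥ ∨ W = ⊤

/-- The values `R` changed by `c`. -/
def mv (E : Em Q V) {k : ℕ} (R : Fin k → Q × Q) (c : Fin k → V × V) : List (Q × Q) :=
  List.ofFn fun i => ((R i).1 * E.ι (c i).1, (R i).2 * E.ι (c i).2)

/-- Data of a path. -/
structure Dt (Q V : Type) [Group Q] [AddCommGroup V] [DistribMulAction Q V] (k : ℕ) where
  u : Q
  κ : V →+ (Fin k → V × V)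
  B : (Fin k → V × V) →+ V
  τ : V →+ V

/-- The datum `t` is realised by pushes through the handles `R`. -/
structure Vd (E : Em Q V) {k : ℕ} (R : Fin k → Q × Q) (t : Dt Q V k) : Prop where
  psh : ∀ (x : V) (b : Q) (c : Fin k → V × V),
    Ps E.rg (E.ι x) b (mv E R c) (t.u * E.ι (t.B c + t.τ (b • x)) * b) (mv E R (c + t.κ (b • x)))
  gen : ∀ c : Fin k → V × V, t.u * E.ι (t.B c) ∈ Gn (mv E R c)

/-- First the path `s`, then the path `t`. -/
def cmp {k : ℕ} (s t : Dt Q V k) : Dt Q V k where
  u := t.u * s.u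
  κ := s.κ + t.κ.comp (act V s.u)
  B := (act V s.u⁻¹).comp t.B + s.B
  τ := s.τ + (act V s.u⁻¹).comp (t.B.comp s.κ) + (act V s.u⁻¹).comp (t.τ.comp (act V s.u))

/-- The inverse path. -/
def rev {k : ℕ} (t : Dt Q V k) : Dt Q V k where
  u := t.u⁻¹
  κ := -(t.κ.comp (act V t.u⁻¹))
  B := -((act V t.u).comp t.B)
  τ := (act V t.u).comp ((t.B.comp t.κ - t.τ).comp (act V t.u⁻¹))

/-- The closed paths: the value `b` is only changed by an element of `V`. -/
def Lp (E : Em Q V) {k : ℕ} (R : Fin k → Q × Q) (t : Dt Q V k) : Prop := Vd E R t ∧ t.u ∈ E.rg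

/-- The changes of the handles `R` by closed paths with foot `x`. -/
def Xi (E : Em Q V) {k : ℕ} (R : Fin k → Q × Q) (x : V) : Set (Fin k → V × V) :=
  {z | ∃ t, Lp E R t ∧ t.κ x = z}

/-- The changes on which the closed paths do not depend. -/
def Dr (E : Em Q V) {k : ℕ} (R : Fin k → Q × Q) : Set (Fin k → V × V) :=
  {c | ∀ t, Lp E R t → t.B c = 0}

end

end Pool.Agent.PWH
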